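import Pool.Agent.Y318.LF.Ratl

set_option autoImplicit false

open Set Filter Topology

namespace Pool.Agent.Y318.LF

open Pool.Agent.H728R2.OS Pool.Agent.H637R2.TD

theorem circ_eq_iff (a b : ℝ) :
    (a : UnitAddCircle) = (b : UnitAddCircle) ↔ ∃ n : ℤ, b - a = n := by
  rw [eq_comm, ← sub_eq_zero, ← AddCircle.coe_sub, AddCircle.coe_eq_zero_iff]
  constructor
  · rintro ⟨n, hn⟩
    exact ⟨n, by rw [← hn, zsmul_one]⟩
  · rintro ⟨n, hn⟩
    exact ⟨n, by rw [hn, zsmul_one]⟩

theorem tor_eq_iff {d : ℕ} (z w : Fin d → ℝ) : toTorus z = toTorus w ↔ IsInt (w - z) := by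
  constructor
  · intro h i
    exact (circ_eq_iff _ _).1 (congrFun h i)
  · intro h
    funext i
    exact (circ_eq_iff _ _).2 (h i)

theorem isInt_sub {d : ℕ} {a b : Fin d → ℝ} (ha : IsInt a) (hb : IsInt b) : IsInt (a - b) := by
  rw [sub_eq_add_neg]
  exact isInt_add ha (isInt_neg hb)

/-- integer valued continuous maps are constant -/
theorem int_const {d : ℕ} {U : (Fin d → ℝ) → (Fin d → ℝ)} (hU : Continuous U)
    (h : ∀ z, IsInt (U z)) (z w : Fin d → ℝ) : U z = U w := by
  funext i
  have hc : Continuous fun t : ℝ => U (z + t • (w - z)) i :=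
    (continuous_apply i).comp (hU.comp (continuous_const.add (continuous_id.smul continuous_const)))
  choose n hn using fun t : ℝ => h (z + t • (w - z)) i
  have hc' : Continuous fun t : ℝ => ((n t : ℤ) : ℝ) := by
    have : (fun t : ℝ => ((n t : ℤ) : ℝ)) = fun t : ℝ => U (z + t • (w - z)) i := by
      funext t; exact (hn t).symm
    rw [this]; exact hc
  have hn' : Continuous n := by
    have hemb := Int.isClosedEmbedding_coe_real
    exact hemb.isEmbedding.continuous_iff.2 hc'
  have := PreconnectedSpace.constant (inferInstance : PreconnectedSpace ℝ) hn' (x := 0) (y := 1)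
  have h0 := hn 0
  have h1 := hn 1
  rw [zero_smul, add_zero] at h0
  rw [one_smul, add_sub_cancel] at h1
  rw [h0, h1, this]

theorem lift : S_LIFT := by
  intro d r f F hf hFc hFl hper
  obtain ⟨⟨F0, hF0, hF0l⟩, G0, hG0, hG0l⟩ := hf
  have hF : ContDiff ℝ r F := by
    have h1 : ∀ z, F z = F0 z + (F 0 - F0 0) := by
      intro z
      have h2 := int_const (U := fun z => F z - F0 z) (hFc.sub hF0.continuous)
        (fun z => (tor_eq_iff _ _).1 (by rw [hF0l, hFl])) z 0
      rw [← h2]; abel
    have : F = fun z => F0 z + (F 0 - F0 0) := funext h1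
    rw [this]
    exact hF0.add contDiff_const
  refine ⟨hF, hper, ?_⟩
  have h1 : ∀ z, IsInt (F (G0 z) - z) := fun z =>
    (tor_eq_iff _ _).1 (by rw [hFl, hG0l, f.apply_symm_apply])
  have h2 : ∀ z, F (G0 z) = z + (F (G0 0) - 0) := by
    intro z
    have := int_const (U := fun z => F (G0 z) - z) ((hFc.comp hG0.continuous).sub continuous_id) h1 z 0
    rw [← this]; abel
  obtain ⟨n, hn⟩ : ∃ n, n = F (G0 0) - 0 := ⟨_, rfl⟩
  have hnI : IsInt n := by rw [hn]; exact h1 0
  rw [← hn] at h2
  have h3 : ∀ z, F (G0 z - n) = z := by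
    intro z
    have := hper (G0 z - n) n hnI
    rw [sub_add_cancel, h2] at this
    exact (add_right_cancel this).symm
  refine ⟨fun z => G0 z - n, hG0.sub contDiff_const, fun z => ?_, h3⟩
  have h4 : IsInt (G0 (F z) - n - z) := by
    have h5 : IsInt (z - G0 (F z)) :=
      (tor_eq_iff _ _).1 (by rw [hG0l, hFl, f.symm_apply_apply])
    have := isInt_neg (isInt_add h5 hnI)
    convert this using 1
    abel
  have h5 := hper z _ h4
  rw [add_sub_cancel, h3] at h5
  have h6 : G0 (F z) - n - z = 0 := by
    have := h5.symm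
    rwa [add_eq_left] at this
  show G0 (F z) - n = z
  rw [← sub_eq_zero]
  exact h6

theorem desc : S_DESC := by
  intro d r F hF
  obtain ⟨G, hG, hGF, hFG⟩ := hF.inv
  have hGper : ∀ z n, IsInt n → G (z + n) = G z + n := by
    intro z n hn
    have h1 := hF.per (G z) n hn
    rw [hFG] at h1
    rw [← h1, hGF]
  have wd : ∀ (H : (Fin d → ℝ) → (Fin d → ℝ)), (∀ z n, IsInt n → H (z + n) = H z + n) →
      ∀ z w, toTorus z = toTorus w → toTorus (H z) = toTorus (H w) := by
    intro H hH z w h
    rw [tor_eq_iff] at h ⊢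
    have := hH z _ h
    rw [add_sub_cancel] at this
    rw [this, add_sub_cancel_left]
    exact h
  have hq : Topology.IsQuotientMap (toTorus : (Fin d → ℝ) → Torus d) := by
    have ho : IsOpenQuotientMap ((↑) : ℝ → UnitAddCircle) := QuotientAddGroup.isOpenQuotientMap_mk
    exact (IsOpenQuotientMap.piMap (fun _ : Fin d => ho)).isQuotientMap
  have h1 : ∀ z, toTorus (F (rep (toTorus z))) = toTorus (F z) := fun z =>
    wd F hF.per _ _ (toTorus_rep _)
  have h2 : ∀ z, toTorus (G (rep (toTorus z))) = toTorus (G z) := fun z =>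
    wd G hGper _ _ (toTorus_rep _)
  let f : Torus d ≃ₜ Torus d :=
    { toFun := fun x => toTorus (F (rep x))
      invFun := fun y => toTorus (G (rep y))
      left_inv := fun x => by
        simp only [h2, hGF, toTorus_rep]
      right_inv := fun y => by
        simp only [h1, hFG, toTorus_rep]
      continuous_toFun := by
        rw [hq.continuous_iff]
        have : (fun x : Torus d => toTorus (F (rep x))) ∘ toTorus = toTorus ∘ F := by
          funext z; exact h1 z
        rw [this]
        exact hq.continuous.comp hF.smooth.continuous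
      continuous_invFun := by
        rw [hq.continuous_iff]
        have : (fun x : Torus d => toTorus (G (rep x))) ∘ toTorus = toTorus ∘ G := by
          funext z; exact h2 z
        rw [this]
        exact hq.continuous.comp hG.continuous }
  exact ⟨f, fun z => (h1 z).symm, ⟨F, hF.smooth, fun z => (h1 z).symm⟩, G, hG, fun z => (h2 z).symm⟩

end Pool.Agent.Y318.LF
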