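import Pool.Agent.Y318.LF.Lift

set_option autoImplicit false

open Set Filter Topology

namespace Pool.Agent.Y318.LF

open Pool.Agent.H728R2.OS Pool.Agent.H637R2.TD

theorem cj_symm {d : ℕ} (A : (Fin d → ℝ) ≃L[ℝ] (Fin d → ℝ)) (F : (Fin d → ℝ) → (Fin d → ℝ)) :
    cj A.symm (cj A F) = F := by
  funext z
  show A.symm (A (F (A.symm (A.symm.symm z)))) = F z
  rw [A.symm_apply_apply]
  congr 1
  exact A.symm_apply_apply z

theorem cjld : S_CJLD := by
  intro d r A hA F hF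
  obtain ⟨G, hG, hGF, hFG⟩ := hF.inv
  refine ⟨A.contDiff.comp (hF.smooth.comp A.symm.contDiff), fun z n hn => ?_, cj A G,
    A.contDiff.comp (hG.comp A.symm.contDiff), fun z => ?_, fun z => ?_⟩
  · show A (F (A.symm (z + n))) = A (F (A.symm z)) + n
    rw [map_add, hF.per _ _ ((intAut_symm hA n).2 hn), map_add, A.apply_symm_apply]
  · show A (G (A.symm (A (F (A.symm z))))) = z
    rw [A.symm_apply_apply, hGF, A.apply_symm_apply]
  · show A (F (A.symm (A (G (A.symm z))))) = z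
    rw [A.symm_apply_apply, hFG, A.apply_symm_apply]

theorem cjsml : S_CJSML := by
  intro d A k ε hε
  obtain ⟨C, hC⟩ : ∃ C : ℝ, C = max 1 ‖(A.symm : (Fin d → ℝ) →L[ℝ] (Fin d → ℝ))‖ := ⟨_, rfl⟩
  have hC1 : 1 ≤ C := by rw [hC]; exact le_max_left _ _
  have hAC : ‖(A.symm : (Fin d → ℝ) →L[ℝ] (Fin d → ℝ))‖ ≤ C := by rw [hC]; exact le_max_right _ _
  set N := ‖(A : (Fin d → ℝ) →L[ℝ] (Fin d → ℝ))‖ + 1 with hN
  have hN0 : 0 < N := by positivity
  have hCk : 0 < C ^ k := by positivity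
  refine ⟨ε / (N * C ^ k), by positivity, fun U hU hs j hj z => ?_⟩
  have hUj : ContDiff ℝ j U := hU.of_le (by exact_mod_cast hj)
  have e : cj A U = (A : (Fin d → ℝ) →L[ℝ] (Fin d → ℝ)) ∘
    (U ∘ (A.symm : (Fin d → ℝ) →L[ℝ] (Fin d → ℝ))) := rfl
  rw [e]
  refine ((A : (Fin d → ℝ) →L[ℝ] (Fin d → ℝ)).norm_iteratedFDeriv_comp_left
    (hUj.comp (A.symm : (Fin d → ℝ) →L[ℝ] (Fin d → ℝ)).contDiff).contDiffAt
    (le_refl (j : WithTop ℕ∞))).trans_lt ?_
  rw [(A.symm : (Fin d → ℝ) →L[ℝ] (Fin d → ℝ)).iteratedFDeriv_comp_right hUj z le_rfl]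
  have h1 : ‖(iteratedFDeriv ℝ j U ((A.symm : (Fin d → ℝ) →L[ℝ] (Fin d → ℝ)) z)).compContinuousLinearMap
      fun _ => (A.symm : (Fin d → ℝ) →L[ℝ] (Fin d → ℝ))‖ ≤ ε / (N * C ^ k) * C ^ k := by
    refine (ContinuousMultilinearMap.norm_compContinuousLinearMap_le _ _).trans ?_
    refine mul_le_mul (hs j hj _).le ?_ (Finset.prod_nonneg fun _ _ => norm_nonneg _) (by positivity)
    rw [Finset.prod_const, Finset.card_univ, Fintype.card_fin]
    calc ‖(A.symm : (Fin d → ℝ) →L[ℝ] (Fin d → ℝ))‖ ^ j ≤ C ^ j :=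
          pow_le_pow_left₀ (norm_nonneg _) hAC j
      _ ≤ C ^ k := pow_le_pow_right₀ hC1 hj
  have h2 : ε / (N * C ^ k) * C ^ k = ε / N := by
    field_simp
  rw [h2] at h1
  calc ‖(A : (Fin d → ℝ) →L[ℝ] (Fin d → ℝ))‖ * _ ≤ ‖(A : (Fin d → ℝ) →L[ℝ] (Fin d → ℝ))‖ * (ε / N) :=
        mul_le_mul_of_nonneg_left h1 (norm_nonneg _)
    _ < N * (ε / N) := mul_lt_mul_of_pos_right (by rw [hN]; linarith) (by positivity)
    _ = ε := by field_simp

theorem ta : S_TA := by
  intro d A hA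
  have wd : ∀ (B : (Fin d → ℝ) ≃L[ℝ] (Fin d → ℝ)), IntAut B → ∀ z w,
      toTorus z = toTorus w → toTorus (B z) = toTorus (B w) := by
    intro B hB z w h
    rw [tor_eq_iff] at h ⊢
    rw [← map_sub]
    exact (hB _).2 h
  have hq : Topology.IsQuotientMap (toTorus : (Fin d → ℝ) → Torus d) := by
    have ho : IsOpenQuotientMap ((↑) : ℝ → UnitAddCircle) := QuotientAddGroup.isOpenQuotientMap_mk
    exact (IsOpenQuotientMap.piMap (fun _ : Fin d => ho)).isQuotientMap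
  have h1 : ∀ z, toTorus (A (rep (toTorus z))) = toTorus (A z) := fun z =>
    wd A hA _ _ (toTorus_rep _)
  have h2 : ∀ z, toTorus (A.symm (rep (toTorus z))) = toTorus (A.symm z) := fun z =>
    wd A.symm (intAut_symm hA) _ _ (toTorus_rep _)
  let f : Torus d ≃ₜ Torus d :=
    { toFun := fun x => toTorus (A (rep x))
      invFun := fun y => toTorus (A.symm (rep y))
      left_inv := fun x => by
        simp only [h2, A.symm_apply_apply, toTorus_rep]
      right_inv := fun y => by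
        simp only [h1, A.apply_symm_apply, toTorus_rep]
      continuous_toFun := by
        rw [hq.continuous_iff]
        have : (fun x : Torus d => toTorus (A (rep x))) ∘ toTorus = toTorus ∘ A := by
          funext z; exact h1 z
        rw [this]
        exact hq.continuous.comp A.continuous
      continuous_invFun := by
        rw [hq.continuous_iff]
        have : (fun x : Torus d => toTorus (A.symm (rep x))) ∘ toTorus = toTorus ∘ A.symm := by
          funext z; exact h2 z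
        rw [this]
        exact hq.continuous.comp A.symm.continuous }
  exact ⟨f, fun z => (h1 z).symm, fun z => (h2 z).symm⟩

theorem lift_cj {d : ℕ} {A : (Fin d → ℝ) ≃L[ℝ] (Fin d → ℝ)} {T : Torus d ≃ₜ Torus d}
    (hT : IsLift toTorus A T) (hT' : IsLift toTorus A.symm T.symm) {f : Torus d ≃ₜ Torus d}
    {F : (Fin d → ℝ) → (Fin d → ℝ)} (hF : IsLift toTorus F f) :
    IsLift toTorus (cj A F) (cjT T f) := by
  intro z
  show toTorus (A (F (A.symm z))) = T (f (T.symm (toTorus z)))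
  rw [hT, hF, hT']

theorem cjT_symm {d : ℕ} (T f : Torus d ≃ₜ Torus d) : (cjT T f).symm = cjT T f.symm := by
  ext x
  rfl

theorem cjT_symm' {d : ℕ} (T f : Torus d ≃ₜ Torus d) : cjT T.symm (cjT T f) = f := by
  ext x
  show T.symm (T (f (T.symm (T x)))) _ = _
  rw [T.symm_apply_apply, T.symm_apply_apply]

theorem cjT_symm'' {d : ℕ} (T f : Torus d ≃ₜ Torus d) : cjT T (cjT T.symm f) = f := by
  ext x
  show T (T.symm (f (T (T.symm x)))) _ = _
  rw [T.apply_symm_apply, T.apply_symm_apply]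

theorem omega_sub {d : ℕ} (T f : Torus d ≃ₜ Torus d) {x : Torus d} (hx : x ∈ Omega f) :
    T x ∈ Omega (cjT T f) := by
  intro U hU
  have hV : T ⁻¹' U ∈ 𝓝 x := T.continuous.continuousAt hU
  obtain ⟨n, hn, y, ⟨z, hz, rfl⟩, hy⟩ := hx _ hV
  refine ⟨n, hn, T (f^[n] z), ⟨T z, hz, ?_⟩, hy⟩
  have hs : Function.Semiconj T f (cjT T f) := fun w => by
    show T (f w) = T (f (T.symm (T w)))
    rw [T.symm_apply_apply]
  exact ((hs.iterate_right n) z).symm

theorem omega_iff {d : ℕ} (T f : Torus d ≃ₜ Torus d) (x : Torus d) :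
    T x ∈ Omega (cjT T f) ↔ x ∈ Omega f := by
  refine ⟨fun h => ?_, omega_sub T f⟩
  have := omega_sub T.symm (cjT T f) h
  rwa [cjT_symm', T.symm_apply_apply] at this

/-- the nonwandering sets are homeomorphic -/
def omegaHomeo {d : ℕ} (T f : Torus d ≃ₜ Torus d) : Omega f ≃ₜ Omega (cjT T f) :=
  T.subtype fun x => (omega_iff T f x).symm

theorem conj_trans {d : ℕ} {f g h : Torus d ≃ₜ Torus d} (h1 : OmegaConj f g)
    (h2 : OmegaConj g h) : OmegaConj f h := by
  obtain ⟨a, ha⟩ := h1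
  obtain ⟨b, hb⟩ := h2
  exact ⟨a.trans b, fun x y hxy => hb _ _ (ha x y hxy)⟩

theorem conj_cjT {d : ℕ} (T f : Torus d ≃ₜ Torus d) : OmegaConj f (cjT T f) := by
  refine ⟨omegaHomeo T f, fun x y hxy => ?_⟩
  show T (y : Torus d) = T (f (T.symm (T (x : Torus d))))
  rw [hxy, T.symm_apply_apply]

theorem conj_symm {d : ℕ} {f g : Torus d ≃ₜ Torus d} (hinv : ∀ x ∈ Omega f, f x ∈ Omega f)
    (h1 : OmegaConj f g) : OmegaConj g f := by
  obtain ⟨a, ha⟩ := h1
  refine ⟨a.symm, fun x y hxy => ?_⟩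
  have h2 := ha (a.symm x) ⟨f (a.symm x), hinv _ (a.symm x).2⟩ rfl
  rw [a.apply_symm_apply] at h2
  have h3 : a ⟨f (a.symm x), hinv _ (a.symm x).2⟩ = y := Subtype.ext (h2.trans hxy.symm)
  rw [← h3, a.symm_apply_apply]

theorem omega_map {d : ℕ} (f : Torus d ≃ₜ Torus d) {x : Torus d} (hx : x ∈ Omega f) :
    f x ∈ Omega f := by
  have := omega_sub f f hx
  have e : cjT f f = f := by
    ext x
    show f (f (f.symm x)) _ = _
    rw [f.apply_symm_apply]
  rwa [e] at this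

theorem cjst : S_CJST := by
  intro d r A T hA hT hT' f
  have hdiff : ∀ (A : (Fin d → ℝ) ≃L[ℝ] (Fin d → ℝ)) (T : Torus d ≃ₜ Torus d),
      IsLift toTorus A T → IsLift toTorus A.symm T.symm → ∀ f : Torus d ≃ₜ Torus d,
      IsDiffeo toTorus r f → IsDiffeo toTorus r (cjT T f) := by
    rintro A T hT hT' f ⟨⟨F, hF, hFl⟩, G, hG, hGl⟩
    refine ⟨⟨cj A F, A.contDiff.comp (hF.comp A.symm.contDiff), lift_cj hT hT' hFl⟩, cj A G,
      A.contDiff.comp (hG.comp A.symm.contDiff), ?_⟩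
    rw [cjT_symm]
    exact lift_cj hT hT' hGl
  have hclose : ∀ (A : (Fin d → ℝ) ≃L[ℝ] (Fin d → ℝ)) (T : Torus d ≃ₜ Torus d),
      IsLift toTorus A T → IsLift toTorus A.symm T.symm → ∀ (k : ℕ) (ε : ℝ), 0 < ε →
      ∃ δ : ℝ, 0 < δ ∧ ∀ f g : Torus d ≃ₜ Torus d,
      CkClose toTorus k δ f g → CkClose toTorus k ε (cjT T f) (cjT T g) := by
    intro A T hT hT' k ε hε
    obtain ⟨δ, hδ, h⟩ := cjsml d A k ε hε
    refine ⟨δ, hδ, ?_⟩
    rintro f g ⟨F, G, hF, hG, hFl, hGl, hc⟩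
    refine ⟨cj A F, cj A G, A.contDiff.comp (hF.comp A.symm.contDiff),
      A.contDiff.comp (hG.comp A.symm.contDiff), lift_cj hT hT' hFl, lift_cj hT hT' hGl, ?_⟩
    have e : (fun w => cj A G w - cj A F w) = cj A (fun w => G w - F w) := by
      funext w
      show A (G (A.symm w)) - A (F (A.symm w)) = A (G (A.symm w) - F (A.symm w))
      rw [map_sub]
    rw [e]
    exact h _ (hG.sub hF) hc
  refine ⟨hdiff A T hT hT' f, hclose A T hT hT', ?_⟩
  rintro ⟨k, hk, ε, hε, hs⟩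
  obtain ⟨δ, hδ, h⟩ := hclose A.symm T.symm hT' hT k ε hε
  refine ⟨k, hk, δ, hδ, fun g hg hc => ?_⟩
  have h1 := h _ _ hc
  rw [cjT_symm'] at h1
  have h2 := hs _ (hdiff A.symm T.symm hT' hT g hg) h1
  have h3 := conj_cjT T (cjT T.symm g)
  rw [cjT_symm''] at h3
  exact conj_trans (conj_symm (fun x hx => omega_map f hx) (conj_cjT T f)) (conj_trans h2 h3)

end Pool.Agent.Y318.LF
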