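import Pool.Agent.H637R2.TD.Defs

set_option autoImplicit false

/-!
# Diffeomorphisms of the torus preserving a complete flag of linear foliations: definitions

The slopes of the foliations are arbitrary (irrational, or rational). The notions of
`Pool.Agent.H728R2.OS.Defs` and `Pool.Agent.H637R2.TD.Defs` are used throughout.
-/

namespace Pool.Agent.Y318.LF

open Pool.Agent.H728R2.OS Pool.Agent.H637R2.TD

/-- The vectors with integer coordinates. -/
def IsInt {d : ℕ} (z : Fin d → ℝ) : Prop := ∀ i, ∃ n : ℤ, z i = n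

/-- A complete flag of linear subspaces of `ℝ^d`: `V 0 ⊆ V 1 ⊆ … ⊆ V d` with `dim V k = k`. -/
structure IsFlag {d : ℕ} (V : ℕ → Submodule ℝ (Fin d → ℝ)) : Prop where
  mono : Monotone V
  dim : ∀ k ≤ d, Module.finrank ℝ (V k) = k

/-- `U` is rational: it is spanned by integer vectors. -/
def IsRat {d : ℕ} (U : Submodule ℝ (Fin d → ℝ)) : Prop :=
  U = Submodule.span ℝ {n | n ∈ U ∧ IsInt n}

/-- `F` maps each leaf `z + V k` into a leaf `F z + V k`. -/
def Pres {d : ℕ} (F : (Fin d → ℝ) → (Fin d → ℝ)) (V : ℕ → Submodule ℝ (Fin d → ℝ)) : Prop :=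
  ∀ (k : ℕ) (z w : Fin d → ℝ), w ∈ V k → F (z + w) - F z ∈ V k

/-- `f` is a `C^r` diffeomorphism of `𝕋^d` isotopic to the identity which preserves the foliations
of `𝕋^d` by the translates of `V 1, …, V (d - 1)`, for the complete flag `V` of linear subspaces of
`ℝ^d`. -/
def PreservesFlag {d : ℕ} (r : ℕ∞) (f : Torus d ≃ₜ Torus d)
    (V : ℕ → Submodule ℝ (Fin d → ℝ)) : Prop :=
  IsDiffeo toTorus r f ∧ IsFlag V ∧ ∃ F : (Fin d → ℝ) → (Fin d → ℝ), Continuous F ∧
    IsLift toTorus F f ∧ (∀ z n, IsInt n → F (z + n) = F z + n) ∧ Pres F V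

end Pool.Agent.Y318.LF
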