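import Pool.Agent.Y318.LF.Ratl

set_option autoImplicit false

open Set Filter Topology

namespace Pool.Agent.Y318.LF

open Pool.Agent.H728R2.OS Pool.Agent.H637R2.TD

/-- continuous maps invariant under integer vectors are bounded -/
theorem bdd_per {d : ℕ} (U : (Fin d → ℝ) → (Fin d → ℝ)) (hU : Continuous U)
    (hper : ∀ z n, IsInt n → U (z + n) = U z) : ∃ M : ℝ, 0 ≤ M ∧ ∀ z, ‖U z‖ ≤ M := by
  obtain ⟨M, hM⟩ := (isCompact_univ_pi (fun _ : Fin d =>
    isCompact_Icc (a := (0 : ℝ)) (b := 1))).exists_bound_of_continuousOn hU.continuousOn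
  have key : ∀ z, ‖U z‖ ≤ M := by
    intro z
    have e := hper z (fun i => -(⌊z i⌋ : ℝ)) (fun i => ⟨-⌊z i⌋, by push_cast; ring⟩)
    rw [← e]
    refine hM _ ?_
    rw [Set.mem_univ_pi]
    intro i
    have : (z + fun i => -(⌊z i⌋ : ℝ)) i = Int.fract (z i) := by
      simp only [Pi.add_apply]
      rw [← sub_eq_add_neg]
      rfl
    rw [this]
    exact ⟨Int.fract_nonneg _, (Int.fract_lt_one _).le⟩
  exact ⟨M, (norm_nonneg _).trans (key 0), key⟩

theorem inv : S_INV := by
  intro d r F G V hF hV hP hGF hFG hGc
  obtain ⟨M, hM0, hM⟩ := bdd_per (fun z => F z - z) (hF.smooth.continuous.sub continuous_id)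
    (fun z n hn => by rw [hF.per z n hn]; abel)
  -- the leaves are mapped onto leaves
  have onto : ∀ k z w, w ∈ V k → ∃ w' ∈ V k, F (z + w') = F z + w := by
    intro k
    induction k with
    | zero =>
      intro z w hw
      have h0 : V 0 = ⊥ := by
        have := hV.dim 0 (Nat.zero_le _)
        rwa [Submodule.finrank_eq_zero] at this
      rw [h0, Submodule.mem_bot] at hw
      exact ⟨0, Submodule.zero_mem _, by rw [hw, add_zero, add_zero]⟩
    | succ k ih =>
      rcases Nat.lt_or_ge d (k + 1) with hk | hk
      · intro z w _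
        refine ⟨G (F z + w) - z, ?_, by rw [add_sub_cancel, hFG]⟩
        have h1 : V d = ⊤ := by
          refine Submodule.eq_top_of_finrank_eq ?_
          rw [hV.dim d le_rfl]
          simp
        have h2 : V d ≤ V (k + 1) := hV.mono (by omega)
        rw [h1] at h2
        exact h2 trivial
      · -- a vector u spanning V (k+1) over V k
        have hlt : V k < V (k + 1) := by
          refine lt_of_le_of_ne (hV.mono (by omega)) fun h => ?_
          have h1 := hV.dim k (by omega)
          have h2 := hV.dim (k + 1) hk
          rw [h] at h1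
          omega
        obtain ⟨u, hu1, hu2⟩ := SetLike.exists_of_lt hlt
        obtain ⟨l, hl1, hl0⟩ : ∃ l : (Fin d → ℝ) →ₗ[ℝ] ℝ, l u ≠ 0 ∧ ∀ x ∈ V k, l x = 0 := by
          obtain ⟨l, hl, hl'⟩ := Submodule.exists_le_ker_of_notMem hu2
          exact ⟨l, hl, fun x hx => hl' hx⟩
        have hspan : ∀ w ∈ V (k + 1), l w = 0 → w ∈ V k := by
          intro w hw hlw
          have h3 : V k ⊔ Submodule.span ℝ {u} = V (k + 1) := by
            refine Submodule.eq_of_le_of_finrank_le
              (sup_le hlt.le ((Submodule.span_singleton_le_iff_mem _ _).2 hu1)) ?_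
            rw [hV.dim (k + 1) hk]
            have h4 : V k < V k ⊔ Submodule.span ℝ {u} := by
              refine lt_of_le_of_ne le_sup_left fun h => hu2 ?_
              rw [h]
              exact Submodule.mem_sup_right (Submodule.mem_span_singleton_self u)
            have h5 := Submodule.finrank_lt_finrank_of_lt h4
            rw [hV.dim k (by omega)] at h5
            omega
          rw [← h3, Submodule.mem_sup] at hw
          obtain ⟨a, ha, b, hb, rfl⟩ := hw
          obtain ⟨c, rfl⟩ := Submodule.mem_span_singleton.1 hb
          rw [map_add, hl0 a ha, zero_add, map_smul, smul_eq_mul] at hlw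
          rcases mul_eq_zero.1 hlw with h | h
          · rw [h, zero_smul, add_zero]
            exact ha
          · exact absurd h hl1
        intro z w hw
        have hlc : Continuous l := LinearMap.continuous_of_finiteDimensional l
        obtain ⟨C, hC0, hC⟩ : ∃ C : ℝ, 0 ≤ C ∧ ∀ x, |l x| ≤ C * ‖x‖ := by
          refine ⟨‖(⟨l, hlc⟩ : (Fin d → ℝ) →L[ℝ] ℝ)‖, norm_nonneg _, fun x => ?_⟩
          have := (⟨l, hlc⟩ : (Fin d → ℝ) →L[ℝ] ℝ).le_opNorm x
          rwa [Real.norm_eq_abs] at this
        have hb : ∀ s : ℝ, |l (F (z + s • u) - F z) - s * l u| ≤ C * (2 * M) := by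
          intro s
          have e : l (F (z + s • u) - F z) - s * l u =
              l (F (z + s • u) - (z + s • u) - (F z - z)) := by
            have : F (z + s • u) - (z + s • u) - (F z - z) = F (z + s • u) - F z - s • u := by abel
            rw [this, map_sub l _ (s • u), map_smul, smul_eq_mul]
          rw [e]
          refine (hC _).trans (mul_le_mul_of_nonneg_left ?_ hC0)
          refine (norm_sub_le _ _).trans ?_
          have h1 := hM (z + s • u)
          have h2 := hM z
          linarith
        -- intermediate values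
        obtain ⟨s, hs⟩ : ∃ s : ℝ, l (F (z + s • u) - F z) = l w := by
          have hcont : Continuous fun s : ℝ => l (F (z + s • u) - F z) :=
            hlc.comp ((hF.smooth.continuous.comp
              (continuous_const.add (continuous_id.smul continuous_const))).sub continuous_const)
          set B := (C * (2 * M) + |l w|) with hB
          have hB0 : 0 ≤ B := by positivity
          have h1 := hb (B / l u)
          have h2 := hb (-B / l u)
          rw [div_mul_cancel₀ _ hl1] at h1 h2
          have h3 := abs_le.1 h1
          have h4 := abs_le.1 h2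
          have h5 := abs_le.1 (le_refl |l w|)
          have h6 : l (F (z + (-B / l u) • u) - F z) ≤ l w := by linarith [h4.2, h5.1]
          have h7 : l w ≤ l (F (z + (B / l u) • u) - F z) := by linarith [h3.1, h5.2]
          have := mem_range_of_exists_le_of_exists_ge hcont ⟨_, h6⟩ ⟨_, h7⟩
          obtain ⟨s, hs⟩ := this
          exact ⟨s, hs⟩
        have h1 : F z + w - F (z + s • u) ∈ V (k + 1) := by
          have h2 := hP (k + 1) z (s • u) ((V (k + 1)).smul_mem _ hu1)
          have h3 := (V (k + 1)).sub_mem hw h2
          convert h3 using 1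
          abel
        have h2 : l (F z + w - F (z + s • u)) = 0 := by
          have : F z + w - F (z + s • u) = w - (F (z + s • u) - F z) := by abel
          rw [this, map_sub l w, hs, sub_self]
        obtain ⟨w', hw', he⟩ := ih (z + s • u) _ (hspan _ h1 h2)
        refine ⟨s • u + w', (V (k + 1)).add_mem ((V (k + 1)).smul_mem _ hu1)
          (hV.mono (by omega) hw'), ?_⟩
        rw [← add_assoc, he]
        abel
  intro k z w hw
  obtain ⟨w', hw', he⟩ := onto k (G z) w hw
  have h1 : G (z + w) = G z + w' := by
    rw [← hGF (G z + w'), he, hFG]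
  rw [h1, add_sub_cancel_left]
  exact hw'

end Pool.Agent.Y318.LF
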