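import Pool.Agent.Y925.LF.Kill

set_option autoImplicit false

/-!
# Destroying all periodic points, preserving the flag

The proof is a copy of helper925's proof in `Pool.Agent.Y925.LF.Kill`, with one more conclusion.
-/

open Set Filter Topology MeasureTheory

namespace Pool.Agent.Y318.LF

open Pool.Agent.H728R2.OS Pool.Agent.H637R2.TD Pool.Agent.Y925.LF.Kill

/-- `S_KILL` with a flag preserving perturbation -/
def S_KILL2 : Prop := ∀ (j c : ℕ) (r : ℕ∞), 1 ≤ r →
  ∀ (F : (Fin (j + 1 + c) → ℝ) → (Fin (j + 1 + c) → ℝ))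
  (V : ℕ → Submodule ℝ (Fin (j + 1 + c) → ℝ)), LD r F → IsFlag V → Pres F V →
  (∀ k, j + 1 ≤ k → V k = std (j + 1 + c) k) → ¬ IsRat (V j) →
  ∀ k : ℕ, (k : ℕ∞) ≤ r → ∀ ε : ℝ, 0 < ε →
    ∃ F' : (Fin (j + 1 + c) → ℝ) → (Fin (j + 1 + c) → ℝ), LD r F' ∧
      Sml k ε (fun z => F' z - F z) ∧ Pres F' V ∧ ∀ z n, 0 < n → ¬ IsInt (F'^[n] z - z)

theorem kill2 (hQ : S_QUOT2) (hI : S_INV) (hK : S_KRON) (hS : S_STD) (hD : S_DESC) : S_KILL2 := by
  intro j c r hr F V hF hV hP hVs hrat k hk ε hε
  -- the flag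
  have hWle : V j ≤ std (j + 1 + c) (j + 1) := by
    rw [← hVs (j + 1) le_rfl]
    exact hV.mono (Nat.le_succ j)
  have hWdim : Module.finrank ℝ (V j) = j := hV.dim j (by omega)
  obtain ⟨lam, hlam0, hlam⟩ := exists_lam j c (V j) hWle hWdim
  have hdense := hK (j + 1) lam hlam0 (not_rat j c (V j) hWle lam hlam hrat)
  obtain ⟨x0, hx0⟩ : ∃ x0, lam x0 = 1 := by
    obtain ⟨x, hx⟩ : ∃ x, lam x ≠ 0 := by
      by_contra h
      push Not at h
      exact hlam0 (LinearMap.ext h)
    exact ⟨(lam x)⁻¹ • x, by rw [map_smul, smul_eq_mul, inv_mul_cancel₀ hx]⟩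
  -- the quotient
  obtain ⟨Fb, hFb, hPb, hFq⟩ := hQ (j + 1) c r F hF
    (fun k hk z w hw => by
      rw [← hVs k hk] at hw ⊢
      exact hP k z w hw)
    (fun G hG h1 h2 z w hw => by
      rw [← hVs (j + 1) le_rfl] at hw ⊢
      exact hI _ r F G V hF hV hP h1 h2 hG (j + 1) z w hw)
  have hFq' : ∀ z, q (F z) = Fb (q z) := fun z => funext fun i => hFq z i
  obtain ⟨fb, hfb, hfbd⟩ := hD c r Fb hFb
  have hfl : IsFlagDiffeo r fb := hS c r fb Fb hfbd hFb hfb hPb
  -- the perturbation
  obtain ⟨η, hη, hclose⟩ := ld_close hF k hk (ε / 2) (half_pos hε)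
  obtain ⟨u, Ψ, hu, hΨ, -, hconv, -⟩ := density hr c fb hfl (max k 1) (min η 1)
    (lt_min hη one_pos)
  set u' : Fin (j + 1 + c) → ℝ → ℝ := Fin.append (fun _ _ => 0) u with hu'
  have hu'l : ∀ i, u' (Fin.castAdd c i) = fun _ => 0 := fun i => by simp [hu']
  have hu'r : ∀ i, u' (Fin.natAdd (j + 1) i) = u i := fun i => by simp [hu']
  have hu's : ∀ i, Small (max k 1) (min η 1) (u' i) := by
    intro i
    refine Fin.addCases (fun i => ?_) (fun i => ?_) i
    · rw [hu'l]
      exact small_zero _ _ (lt_min hη one_pos)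
    · rw [hu'r]
      exact hu i
  have hLQ : LD r (prodLift u') := ld_prodLift r u' fun i =>
    small_mono (hu's i) (le_max_right _ _) (min_le_right _ _)
  have hsmall := hclose _ (smallMap_pi k η hη u' fun i =>
    small_mono (hu's i) (le_max_left _ _) (min_le_left _ _))
  set F1 : (Fin (j + 1 + c) → ℝ) → (Fin (j + 1 + c) → ℝ) := fun z => prodLift u' (F z) with hF1
  have hLF1 : LD r F1 := LD.comp hF hLQ
  have hdF1 : ∀ z, hd (F1 z) = hd (F z) := by
    intro z
    funext i
    show F z (Fin.castAdd c i) + u' (Fin.castAdd c i) (F z (Fin.castAdd c i)) = _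
    rw [hu'l, add_zero]
    rfl
  have qF1 : ∀ z, q (F1 z) = prodLift u (Fb (q z)) := by
    intro z
    funext i
    show F z (Fin.natAdd (j + 1) i) + u' (Fin.natAdd (j + 1) i) (F z (Fin.natAdd (j + 1) i)) = _
    rw [hu'r, ← hFq']
    rfl
  -- the function `tau`
  set tau : (Fin (j + 1 + c) → ℝ) → ℝ := fun z => lam (hd (F z - z)) with htau
  have hlamc : Continuous lam := lam.continuous_of_finiteDimensional
  have htc : Continuous tau :=
    hlamc.comp (cont_hd.comp (hF.smooth.continuous.sub continuous_id))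
  have hti : ∀ z n, IsInt n → tau (z + n) = tau z := by
    intro z n hn
    simp only [htau]
    rw [hF.per z n hn]
    congr 2
    abel
  have hlW : ∀ w ∈ V j, lam (hd w) = 0 := by
    intro w hw
    rw [hlam, ι_hd (hWle hw)]
    exact hw
  have htw : ∀ z w, w ∈ V j → tau (z + w) = tau z := by
    intro z w hw
    simp only [htau]
    have e : F (z + w) - (z + w) = (F z - z) + (F (z + w) - F z) - w := by abel
    rw [e, hd_sub, hd_add, map_sub, map_add, hlW _ (hP j z w hw), hlW w hw]
    ring
  have htι : ∀ z y, tau (z + ι y) = tau z :=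
    tau_inv j c (V j) lam hlam hdense x0 hx0 tau htc hti htw
  set T : (Fin c → ℝ) → ℝ := fun y => tau (Fin.append 0 y) with hT
  have htT : ∀ z, tau z = T (q z) := by
    intro z
    have e : z = Fin.append 0 (q z) + ι (hd z) := by
      refine ext_coords ?_ ?_
      · rw [hd_add, hd_ι]
        funext i
        show z (Fin.castAdd c i) = Fin.append 0 (q z) (Fin.castAdd c i) + z (Fin.castAdd c i)
        simp
      · rw [q_add, q_ι]
        funext i
        show z (Fin.natAdd (j + 1) i) = Fin.append 0 (q z) (Fin.natAdd (j + 1) i) + 0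
        simp [q]
    conv_lhs => rw [e]
    rw [htι]
  have hTi : ∀ y n, IsInt n → T (y + n) = T y := by
    intro y n hn
    simp only [hT]
    have e : (Fin.append 0 (y + n) : Fin (j + 1 + c) → ℝ) =
        Fin.append 0 y + Fin.append 0 n := by
      funext i
      refine Fin.addCases (fun i => ?_) (fun i => ?_) i <;> simp
    rw [e]
    refine hti _ _ ?_
    intro i
    refine Fin.addCases (fun i => ?_) (fun i => ?_) i
    · exact ⟨0, by simp⟩
    · obtain ⟨m, hm⟩ := hn i
      exact ⟨m, by rw [← hm]; simp⟩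
  set tb : Torus c → ℝ := fun p => T (rep p) with htb
  have hTtb : ∀ y, T y = tb (toTorus y) := by
    intro y
    simp only [htb]
    have h1 : toTorus (rep (toTorus y)) = toTorus y := toTorus_rep _
    have h2 : ∀ i, ∃ n : ℤ, y i = rep (toTorus y) i + n := fun i =>
      exists_int (congrFun h1.symm i)
    choose n hn using h2
    have e : y = rep (toTorus y) + fun i => (n i : ℝ) := funext hn
    conv_lhs => rw [e]
    exact hTi _ _ fun i => ⟨n i, rfl⟩
  -- the bad set
  set g : Torus c ≃ₜ Torus c := fb.trans Ψ with hg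
  set bad : Set ℝ := (fun a : Torus c × ℕ × (Fin (j + 1) → ℤ) =>
    (lam (fun i => (a.2.2 i : ℝ)) - ∑ i ∈ Finset.range a.2.1, tb (g^[i] a.1)) / a.2.1) ''
    ({x | ∃ n, 0 < n ∧ g^[n] x = x} ×ˢ univ) with hbad
  have hcount : bad.Countable :=
    (hconv.1.countable.prod countable_univ).image _
  obtain ⟨t, ht1, ht2⟩ : ∃ t : ℝ, ‖t • ι (c := c) x0‖ < ε / 2 ∧ t ∉ bad := by
    have hopen : IsOpen {t : ℝ | ‖t • ι (c := c) x0‖ < ε / 2} :=
      isOpen_lt (continuous_id.smul continuous_const).norm continuous_const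
    obtain ⟨t, h1, h2⟩ := (hcount.dense_compl ℝ).exists_mem_open hopen ⟨0, by simp [hε]⟩
    exact ⟨t, h2, h1⟩
  refine ⟨fun z => F1 z + t • ι x0, LD.add hLF1 _, ?_, ?_, ?_⟩
  · have e : (fun z => F1 z + t • ι (c := c) x0 - F z) =
        fun z => (fun (z : Fin (j + 1 + c) → ℝ) (i : Fin (j + 1 + c)) => u' i (z i)) (F z) +
          t • ι (c := c) x0 := by
      funext z i
      show F z i + u' i (F z i) + (t • ι (c := c) x0) i - F z i =
        u' i (F z i) + (t • ι (c := c) x0) i
      ring
    rw [e]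
    exact sml_add_const k ε hε _ hsmall _ ht1
  · -- the flag is preserved
    intro m z w hw
    have e0 : (fun z => F1 z + t • ι (c := c) x0) (z + w) - (fun z => F1 z + t • ι (c := c) x0) z =
        F1 (z + w) - F1 z := by
      simp
    rw [e0]
    have hPw := hP m z w hw
    rcases Nat.lt_or_ge j m with hm | hm
    · rw [hVs m hm] at hPw ⊢
      intro i hi
      have h1 : F (z + w) i = F z i := by
        have := hPw i hi
        rwa [Pi.sub_apply, sub_eq_zero] at this
      show F (z + w) i + u' i (F (z + w) i) - (F z i + u' i (F z i)) = 0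
      rw [h1, sub_self]
    · have hPs : F (z + w) - F z ∈ std (j + 1 + c) (j + 1) := hWle (hV.mono hm hPw)
      have e : F1 (z + w) - F1 z = F (z + w) - F z := by
        funext i
        show F (z + w) i + u' i (F (z + w) i) - (F z i + u' i (F z i)) = F (z + w) i - F z i
        refine Fin.addCases (fun i => ?_) (fun i => ?_) i
        · rw [hu'l]
          ring
        · have h1 : F (z + w) (Fin.natAdd (j + 1) i) = F z (Fin.natAdd (j + 1) i) := by
            have := hPs (Fin.natAdd (j + 1) i) (by simp)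
            rwa [Pi.sub_apply, sub_eq_zero] at this
          rw [h1]
          ring
      rw [e]
      exact hPw
  intro z n hn hint
  set F' : (Fin (j + 1 + c) → ℝ) → (Fin (j + 1 + c) → ℝ) := fun z => F1 z + t • ι x0 with hF'
  have hqF' : ∀ z, toTorus (q (F' z)) = g (toTorus (q z)) := by
    intro z
    have h1 : q (F' z) = prodLift u (Fb (q z)) := by
      rw [← qF1]
      show q (F1 z + t • ι x0) = q (F1 z)
      rw [← map_smul, q_add, q_ι, add_zero]
    rw [h1, hΨ, hfb]
    rfl
  have hqit : ∀ i, toTorus (q (F'^[i] z)) = g^[i] (toTorus (q z)) := by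
    intro i
    induction i with
    | zero => rfl
    | succ i ih =>
      rw [Function.iterate_succ_apply', Function.iterate_succ_apply', hqF', ih]
  have hstep : ∀ z, lam (hd (F' z - z)) = tb (toTorus (q z)) + t := by
    intro z
    have e : hd (F' z - z) = hd (F z - z) + t • x0 := by
      show hd (F1 z + t • ι x0 - z) = _
      rw [hd_sub, hd_add, hdF1, ← map_smul, hd_ι, hd_sub]
      abel
    rw [e, map_add, map_smul, hx0, ← hTtb, ← htT]
    simp [htau]
  have hsum : ∀ n, lam (hd (F'^[n] z - z)) =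
      ∑ i ∈ Finset.range n, tb (g^[i] (toTorus (q z))) + n * t := by
    intro n
    induction n with
    | zero =>
      have : hd (F'^[0] z - z) = (0 : Fin (j + 1) → ℝ) := by
        rw [Function.iterate_zero, id_eq, sub_self]; rfl
      rw [this]
      simp
    | succ n ih =>
      have e : F'^[n + 1] z - z = (F' (F'^[n] z) - F'^[n] z) + (F'^[n] z - z) := by
        rw [Function.iterate_succ_apply']
        abel
      rw [e, hd_add, map_add, hstep, ih, Finset.sum_range_succ, hqit]
      push_cast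
      ring
  -- the contradiction
  apply ht2
  choose m hm using hint
  refine ⟨(toTorus (q z), n, fun i => m (Fin.castAdd c i)), ⟨⟨n, hn, ?_⟩, mem_univ _⟩, ?_⟩
  · rw [← hqit]
    funext i
    show ((F'^[n] z (Fin.natAdd (j + 1) i) : ℝ) : UnitAddCircle) =
      ((z (Fin.natAdd (j + 1) i) : ℝ) : UnitAddCircle)
    have : F'^[n] z (Fin.natAdd (j + 1) i) = z (Fin.natAdd (j + 1) i) +
        (m (Fin.natAdd (j + 1) i) : ℝ) := by
      rw [← hm]
      simp
    rw [this, coe_add_int]
  · have h1 : lam (fun i => ((m (Fin.castAdd c i) : ℤ) : ℝ)) = lam (hd (F'^[n] z - z)) := by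
      congr 1
      funext i
      exact (hm (Fin.castAdd c i)).symm
    show (lam (fun i => ((m (Fin.castAdd c i) : ℤ) : ℝ)) -
      ∑ i ∈ Finset.range n, tb (g^[i] (toTorus (q z)))) / n = t
    rw [h1, hsum]
    have hn' : (n : ℝ) ≠ 0 := by exact_mod_cast hn.ne'
    field_simp
    ring

end Pool.Agent.Y318.LF
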