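import Pool.Agent.Y318.LF.Inv

set_option autoImplicit false

open Set Filter Topology

namespace Pool.Agent.Y318.LF

open Pool.Agent.H728R2.OS Pool.Agent.H637R2.TD

/-- perturbations of the identity -/
theorem homeo_of_small {D : ℕ} {r : ℕ∞} (hr : 1 ≤ r) (U : (Fin D → ℝ) → (Fin D → ℝ))
    (hU : ContDiff ℝ r U) (hd : ∀ z, ‖fderiv ℝ U z‖ ≤ 1 / 2) :
    ∃ A : (Fin D → ℝ) ≃ₜ (Fin D → ℝ), (∀ z, A z = z + U z) ∧ ContDiff ℝ r A.symm := by
  have hdiff : Differentiable ℝ U :=
    hU.differentiable (by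
      intro h
      have : (r : WithTop ℕ∞) = ((0 : ℕ∞) : WithTop ℕ∞) := h
      have h2 : r = 0 := by exact_mod_cast this
      rw [h2] at hr
      simp at hr)
  have hL : ∀ x y, ‖U x - U y‖ ≤ 1 / 2 * ‖x - y‖ := fun x y =>
    Convex.norm_image_sub_le_of_norm_fderiv_le (𝕜 := ℝ) (f := U) (s := univ)
      (fun z _ => hdiff z) (fun z _ => hd z) convex_univ (mem_univ y) (mem_univ x)
  set f : (Fin D → ℝ) → (Fin D → ℝ) := fun z => z + U z with hf
  have happ : ApproximatesLinearOn f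
      ((ContinuousLinearEquiv.refl ℝ (Fin D → ℝ) : (Fin D → ℝ) ≃L[ℝ] (Fin D → ℝ)) :
        (Fin D → ℝ) →L[ℝ] (Fin D → ℝ)) univ (1 / 2) := by
    intro x _ y _
    have : f x - f y - (ContinuousLinearEquiv.refl ℝ (Fin D → ℝ) : (Fin D → ℝ) →L[ℝ] (Fin D → ℝ)) (x - y)
        = U x - U y := by
      simp [hf]; abel
    rw [this]
    refine (hL x y).trans (le_of_eq ?_)
    simp
  have hc : Subsingleton (Fin D → ℝ) ∨ (1 / 2 : NNReal) <
      ‖((ContinuousLinearEquiv.refl ℝ (Fin D → ℝ)).symm :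
        (Fin D → ℝ) →L[ℝ] (Fin D → ℝ))‖₊⁻¹ := by
    rcases subsingleton_or_nontrivial (Fin D → ℝ) with h | h
    · exact Or.inl h
    · right
      have h1 : ‖((ContinuousLinearEquiv.refl ℝ (Fin D → ℝ)).symm :
          (Fin D → ℝ) →L[ℝ] (Fin D → ℝ))‖₊ = 1 := by
        rw [ContinuousLinearEquiv.refl_symm]
        have : ((ContinuousLinearEquiv.refl ℝ (Fin D → ℝ) : (Fin D → ℝ) ≃L[ℝ] (Fin D → ℝ)) :
          (Fin D → ℝ) →L[ℝ] (Fin D → ℝ)) = ContinuousLinearMap.id ℝ _ := rfl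
        rw [this]
        exact ContinuousLinearMap.nnnorm_id
      rw [h1, inv_one]
      exact NNReal.half_lt_self one_ne_zero
  set A := happ.toHomeomorph f hc with hA
  have hAf : ∀ z, A z = f z := fun z => rfl
  refine ⟨A, hAf, ?_⟩
  have hinv : ∀ z, ‖-fderiv ℝ U z‖ < 1 := fun z => by
    rw [norm_neg]; linarith [hd z]
  refine Homeomorph.contDiff_symm A
    (f₀' := fun z => ContinuousLinearEquiv.ofUnit (Units.oneSub (-fderiv ℝ U z) (hinv z)))
    (fun z => ?_) ?_
  · have h1 : HasFDerivAt f (ContinuousLinearMap.id ℝ _ + fderiv ℝ U z) z :=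
      (hasFDerivAt_id z).add (hdiff z).hasFDerivAt
    have h2 : ((ContinuousLinearEquiv.ofUnit (Units.oneSub (-fderiv ℝ U z) (hinv z)) :
        (Fin D → ℝ) ≃L[ℝ] (Fin D → ℝ)) : (Fin D → ℝ) →L[ℝ] (Fin D → ℝ)) =
        ContinuousLinearMap.id ℝ _ + fderiv ℝ U z := by
      ext v
      simp [ContinuousLinearEquiv.ofUnit]
    rw [h2]
    exact h1
  · exact contDiff_id.add hU

/-- derivatives of periodic functions are bounded -/
theorem bdd_iter' {D : ℕ} {F : Type} [NormedAddCommGroup F] [NormedSpace ℝ F]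
    (U : (Fin D → ℝ) → F) (k : ℕ) (hU : ContDiff ℝ k U)
    (hper : ∀ z n, IsInt n → U (z + n) = U z) :
    ∃ M : ℝ, 0 ≤ M ∧ ∀ j ≤ k, ∀ z, ‖iteratedFDeriv ℝ j U z‖ ≤ M := by
  have one : ∀ j ≤ k, ∃ M : ℝ, 0 ≤ M ∧ ∀ z, ‖iteratedFDeriv ℝ j U z‖ ≤ M := by
    intro j hj
    have hc : Continuous fun z => iteratedFDeriv ℝ j U z :=
      hU.continuous_iteratedFDeriv (by exact_mod_cast hj)
    obtain ⟨M, hM⟩ := (isCompact_univ_pi (fun _ : Fin D => isCompact_Icc (a := (0 : ℝ)) (b := 1))).exists_bound_of_continuousOn hc.continuousOn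
    have key : ∀ z, ‖iteratedFDeriv ℝ j U z‖ ≤ M := by
      intro z
      set n : Fin D → ℝ := fun i => -(⌊z i⌋ : ℝ) with hn
      have hnI : IsInt n := fun i => ⟨-⌊z i⌋, by simp [hn]⟩
      have e1 : (fun w => U (w + n)) = U := by
        funext w
        exact hper w n hnI
      have e2 := iteratedFDeriv_comp_add_right (𝕜 := ℝ) (f := U) j n z
      rw [e1] at e2
      rw [e2]
      refine hM _ ?_
      rw [Set.mem_univ_pi]
      intro i
      have : (z + n) i = Int.fract (z i) := by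
        simp only [Pi.add_apply, hn]
        rw [← sub_eq_add_neg]
        rfl
      rw [this]
      exact ⟨Int.fract_nonneg _, (Int.fract_lt_one _).le⟩
    exact ⟨M, (norm_nonneg _).trans (key 0), key⟩
  have hch : ∀ j : ℕ, ∃ M : ℝ, 0 ≤ M ∧ (j ≤ k → ∀ z, ‖iteratedFDeriv ℝ j U z‖ ≤ M) := by
    intro j
    by_cases hj : j ≤ k
    · obtain ⟨M, h0, h1⟩ := one j hj
      exact ⟨M, h0, fun _ => h1⟩
    · exact ⟨0, le_rfl, fun h => absurd h hj⟩
  choose M hM0 hM using hch
  refine ⟨∑ j ∈ Finset.range (k + 1), M j, Finset.sum_nonneg fun j _ => hM0 j, fun j hj z => ?_⟩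
  exact (hM j hj z).trans (Finset.single_le_sum (f := M) (fun i _ => hM0 i)
    (Finset.mem_range.2 (by omega)))

theorem pert : S_PERT := by
  intro d r hr F hF l k hk ε hε
  obtain ⟨G, hG, hGF, hFG⟩ := hF.inv
  have hGper : ∀ z n, IsInt n → G (z + n) = G z + n := by
    intro z n hn
    have h1 := hF.per (G z) n hn
    rw [hFG] at h1
    rw [← h1, hGF]
  have hφ : ContDiff ℝ r (fun z => F z - z) := hF.smooth.sub contDiff_id
  have hψ : ContDiff ℝ r (fun z => z - G z) := contDiff_id.sub hG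
  obtain ⟨M, hM0, hM⟩ := bdd_iter' (fun z => F z - z) k (hφ.of_le (by exact_mod_cast hk))
    (fun z n hn => by rw [hF.per z n hn]; abel)
  obtain ⟨M', hM'0, hM'⟩ := bdd_iter' (fun z => z - G z) 1 (hψ.of_le (by exact_mod_cast hr))
    (fun z n hn => by rw [hGper z n hn]; abel)
  have hl1 : 0 < ‖l‖ + 1 := by positivity
  refine ⟨min (ε / ((‖l‖ + 1) * (M + 1))) (1 / (2 * ((‖l‖ + 1) * (M' + 1)))),
    lt_min (by positivity) (by positivity), fun u hu => ?_⟩
  have hu1 : ‖u‖ < ε / ((‖l‖ + 1) * (M + 1)) := hu.trans_le (min_le_left _ _)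
  have hu2 : ‖u‖ < 1 / (2 * ((‖l‖ + 1) * (M' + 1))) := hu.trans_le (min_le_right _ _)
  set T : (Fin d → ℝ) →L[ℝ] (Fin d → ℝ) := l.smulRight u with hT
  have hTa : ∀ x, T x = l x • u := fun x => rfl
  have hTn : ‖T‖ ≤ (‖l‖ + 1) * ‖u‖ := by
    rw [hT, ContinuousLinearMap.norm_smulRight_apply]
    exact mul_le_mul_of_nonneg_right (by linarith) (norm_nonneg _)
  constructor
  · -- a diffeomorphism
    have hd : ∀ z, ‖fderiv ℝ (fun z => T (z - G z)) z‖ ≤ 1 / 2 := by
      intro z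
      have hdz : DifferentiableAt ℝ (fun z => z - G z) z := by
        have : ContDiff ℝ 1 (fun z => z - G z) := hψ.of_le (by exact_mod_cast hr)
        exact this.differentiable one_ne_zero z
      have e1 : fderiv ℝ (fun z => T (z - G z)) z = T ∘L fderiv ℝ (fun z => z - G z) z :=
        (T.hasFDerivAt.comp z hdz.hasFDerivAt).fderiv
      have e2 : ‖fderiv ℝ (fun z => z - G z) z‖ ≤ M' := by
        have := hM' 1 le_rfl z
        rwa [norm_iteratedFDeriv_one] at this
      rw [e1]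
      calc ‖T ∘L fderiv ℝ (fun z => z - G z) z‖ ≤ ‖T‖ * ‖fderiv ℝ (fun z => z - G z) z‖ :=
            ContinuousLinearMap.opNorm_comp_le _ _
        _ ≤ ((‖l‖ + 1) * ‖u‖) * (M' + 1) :=
          mul_le_mul hTn (by linarith) (norm_nonneg _) (by positivity)
        _ = ‖u‖ * ((‖l‖ + 1) * (M' + 1)) := by ring
        _ ≤ (1 / (2 * ((‖l‖ + 1) * (M' + 1)))) * ((‖l‖ + 1) * (M' + 1)) :=
          mul_le_mul_of_nonneg_right hu2.le (by positivity)
        _ = 1 / 2 := by
          have : (‖l‖ + 1) * (M' + 1) ≠ 0 := by positivity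
          field_simp
    have hUc : ContDiff ℝ r (fun z => T (z - G z)) := T.contDiff.comp hψ
    obtain ⟨A, hA, hAs⟩ := homeo_of_small hr (fun z => T (z - G z)) hUc hd
    refine ⟨hF.smooth.add (T.contDiff.comp hφ), fun z n hn => ?_, fun y => G (A.symm y),
      hG.comp hAs, fun z => ?_, fun y => ?_⟩
    · rw [hF.per z n hn]
      have : F z + n - (z + n) = F z - z := by abel
      rw [this]
      abel
    · have h1 : F z + l (F z - z) • u = A (F z) := by
        rw [hA, hGF]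
        rfl
      show G (A.symm (F z + l (F z - z) • u)) = z
      rw [h1, A.symm_apply_apply, hGF]
    · have h1 : A (A.symm y) = A.symm y + l (A.symm y - G (A.symm y)) • u := hA _
      rw [A.apply_symm_apply] at h1
      show F (G (A.symm y)) + l (F (G (A.symm y)) - G (A.symm y)) • u = y
      rw [hFG]
      exact h1.symm
  · intro j hj z
    have hφj : ContDiff ℝ j (fun z => F z - z) :=
      hφ.of_le (by exact_mod_cast (show (j : ℕ∞) ≤ r from le_trans (by exact_mod_cast hj) hk))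
    have h1 := T.norm_iteratedFDeriv_comp_left (x := z) (f := fun z => F z - z) hφj.contDiffAt
      (le_refl (j : WithTop ℕ∞))
    have e : (fun z => l (F z - z) • u) = T ∘ fun z => F z - z := rfl
    rw [e]
    refine h1.trans_lt ?_
    calc ‖T‖ * ‖iteratedFDeriv ℝ j (fun z => F z - z) z‖ ≤ ((‖l‖ + 1) * ‖u‖) * (M + 1) :=
          mul_le_mul hTn (by linarith [hM j hj z]) (norm_nonneg _) (by positivity)
      _ = ‖u‖ * ((‖l‖ + 1) * (M + 1)) := by ring
      _ < (ε / ((‖l‖ + 1) * (M + 1))) * ((‖l‖ + 1) * (M + 1)) :=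
        mul_lt_mul_of_pos_right hu1 (by positivity)
      _ = ε := by
        have : (‖l‖ + 1) * (M + 1) ≠ 0 := by positivity
        field_simp

end Pool.Agent.Y318.LF
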