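import Pool.Agent.Y318.LF.Std
import Pool.Agent.H637R2.TD.S.PROD

set_option autoImplicit false

open Set Filter Topology

namespace Pool.Agent.Y318.LF

open Pool.Agent.H728R2.OS Pool.Agent.H637R2.TD

theorem std' : S_STD' := by
  intro d r f F hf hF hl _ k z w hw j hj
  have := PRODaux.lift_tri hf.flag hF hl j (z + w) z (fun i hi => by
    have : w i = 0 := hw i (le_trans hj hi)
    rw [Pi.add_apply, this, add_zero])
  show F (z + w) j - F z j = 0
  rw [this, sub_self]

end Pool.Agent.Y318.LF
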