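import Pool.Agent.Y318.LF.Quot
import Pool.Agent.Y318.LF.Pert
import Pool.Agent.Y318.LF.Std2
import Pool.Agent.Y318.LF.Cj
import Pool.Agent.Y785.LF.Sub
import Pool.Agent.Y925.LF.Kill
import Pool.Agent.Y925.LF.Adapt
import Pool.Agent.H678R3.Attr.Iso

set_option autoImplicit false

open Set Filter Topology

namespace Pool.Agent.Y318.LF

open Pool.Agent.H728R2.OS Pool.Agent.H637R2.TD

/-- Approximation by conjugates of flag preserving diffeomorphisms. -/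
theorem exists_rat (hPRIM : S_PRIM) {d : ℕ} {r : ℕ∞} (hr : 1 ≤ r) {f : Torus d ≃ₜ Torus d}
    {V : ℕ → Submodule ℝ (Fin d → ℝ)} (hf : PreservesFlag r f V) (k : ℕ) (hk : (k : ℕ∞) ≤ r)
    (ε : ℝ) (hε : 0 < ε) : ∃ (A : (Fin d → ℝ) ≃L[ℝ] (Fin d → ℝ)) (T h : Torus d ≃ₜ Torus d),
      IntAut A ∧ IsLift toTorus A T ∧ IsLift toTorus A.symm T.symm ∧ IsFlagDiffeo r h ∧
      CkClose toTorus k ε f (cjT T.symm h) ∧
      ∃ H : (Fin d → ℝ) → (Fin d → ℝ), LD r H ∧ IsLift toTorus H h := by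
  obtain ⟨hd, hV, F, hFc, hFl, hper, hP⟩ := hf
  have hF : LD r F := lift d r f F hd hFc hFl hper
  obtain ⟨F', hF', hs, A, hA, hPA⟩ := ratl Pool.Agent.Y785.LF.subg Pool.Agent.Y785.LF.dir
    hPRIM pert inv quot recomb tail cjld cjsml d r hr F V hF hV hP k hk ε hε
  obtain ⟨f', hf'l, hf'd⟩ := desc d r F' hF'
  obtain ⟨T, hT, hT'⟩ := ta d A hA
  refine ⟨A, T, cjT T f', hA, hT, hT', ?_, ?_, cj A F', cjld d r A hA F' hF', lift_cj hT hT' hf'l⟩
  · exact std_ inv d r _ (cj A F') ((cjst d r A T hA hT hT' f').1 hf'd) (cjld d r A hA F' hF')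
      (lift_cj hT hT' hf'l) hPA
  · rw [cjT_symm']
    exact ⟨F, F', hF.smooth.of_le (by exact_mod_cast hk), hF'.smooth.of_le (by exact_mod_cast hk),
      hFl, hf'l, hs⟩

theorem isRat_std (d n : ℕ) : IsRat (std d n) := by
  refine le_antisymm (fun z hz => ?_) (Submodule.span_le.2 fun z hz => hz.1)
  have e : z = ∑ j, z j • (Pi.single j 1 : Fin d → ℝ) := by
    funext i
    simp [Finset.sum_apply, Pi.single_apply]
  rw [e]
  refine Submodule.sum_mem _ fun j _ => ?_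
  rcases Nat.lt_or_ge (j : ℕ) n with h | h
  · refine Submodule.smul_mem _ _ (Submodule.subset_span ⟨fun i hi => ?_, fun i => ?_⟩)
    · rw [Pi.single_eq_of_ne]
      rintro rfl
      omega
    · by_cases hij : i = j
      · subst hij
        exact ⟨1, by simp⟩
      · exact ⟨0, by rw [Pi.single_eq_of_ne hij]; simp⟩
  · rw [hz j h, zero_smul]
    exact Submodule.zero_mem _

theorem isRat_mapA {d : ℕ} {U : Submodule ℝ (Fin d → ℝ)} (hU : IsRat U)
    {A : (Fin d → ℝ) ≃L[ℝ] (Fin d → ℝ)} (hA : IntAut A) :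
    IsRat (U.map (A : (Fin d → ℝ) →ₗ[ℝ] (Fin d → ℝ))) := by
  refine le_antisymm ?_ (Submodule.span_le.2 fun z hz => hz.1)
  conv_lhs => rw [hU]
  rw [Submodule.map_span]
  refine Submodule.span_mono ?_
  rintro _ ⟨x, ⟨hx, hi⟩, rfl⟩
  exact ⟨⟨x, hx, rfl⟩, (hA x).2 hi⟩

theorem map_symm_map {d : ℕ} (A : (Fin d → ℝ) ≃L[ℝ] (Fin d → ℝ)) (U : Submodule ℝ (Fin d → ℝ)) :
    (U.map (A : (Fin d → ℝ) →ₗ[ℝ] (Fin d → ℝ))).map
      (A.symm : (Fin d → ℝ) →ₗ[ℝ] (Fin d → ℝ)) = U := by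
  ext x
  constructor
  · rintro ⟨_, ⟨y, hy, rfl⟩, rfl⟩
    show A.symm (A y) ∈ U
    rw [A.symm_apply_apply]
    exact hy
  · intro hx
    exact ⟨A x, ⟨x, hx, rfl⟩, A.symm_apply_apply x⟩

theorem isRat_of_mapA {d : ℕ} {U : Submodule ℝ (Fin d → ℝ)}
    {A : (Fin d → ℝ) ≃L[ℝ] (Fin d → ℝ)} (hA : IntAut A)
    (h : IsRat (U.map (A : (Fin d → ℝ) →ₗ[ℝ] (Fin d → ℝ)))) : IsRat U := by
  have := isRat_mapA h (intAut_symm hA)
  rwa [map_symm_map] at this

theorem isInt_small {d : ℕ} {n : Fin d → ℝ} (hn : IsInt n) (h : ‖n‖ < 1) : n = 0 := by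
  funext i
  obtain ⟨m, hm⟩ := hn i
  have h1 : |(m : ℝ)| < 1 := by
    rw [← hm, ← Real.norm_eq_abs]
    exact (norm_le_pi_norm n i).trans_lt h
  have h2 : |m| < 1 := by exact_mod_cast h1
  have h3 : m = 0 := Int.abs_lt_one_iff.1 h2
  rw [hm, h3]
  simp

/-- `g` close to `h` is isotopic to the identity, and preserves the standard flag. -/
theorem pres_of_close {d k : ℕ} {r : ℕ∞} {A : (Fin d → ℝ) ≃L[ℝ] (Fin d → ℝ)}
    {T h g : Torus d ≃ₜ Torus d} (hA : IntAut A) (hT : IsLift toTorus A T)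
    (hT' : IsLift toTorus A.symm T.symm) {H : (Fin d → ℝ) → (Fin d → ℝ)} (hH : LD r H)
    (hHl : IsLift toTorus H h) (hg : IsFlagDiffeo r g) {δ : ℝ} (hδ : δ ≤ 1 / 2)
    (hc : CkClose toTorus k δ h g) :
    PreservesFlag r (cjT T.symm g)
      (fun n => (std d n).map (A.symm : (Fin d → ℝ) →ₗ[ℝ] (Fin d → ℝ))) := by
  obtain ⟨H1, G1, hH1, hG1, lH, lG, hcl⟩ := hc
  have hH1per : ∀ z n, IsInt n → H1 (z + n) = H1 z + n := by
    intro z n hn
    have h1 := int_const (U := fun z => H1 z - H z) (hH1.continuous.sub hH.smooth.continuous)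
      (fun z => (tor_eq_iff _ _).1 (by rw [lH, hHl])) (z + n) z
    have h2 := hH.per z n hn
    have h3 : H1 (z + n) = (H1 (z + n) - H (z + n)) + H (z + n) := by abel
    rw [h3]
    rw [h1, h2]
    abel
  have hG1per : ∀ z n, IsInt n → G1 (z + n) = G1 z + n := by
    intro z n hn
    have h1 : IsInt (G1 (z + n) - G1 z - n) := by
      refine isInt_sub ((tor_eq_iff _ _).1 ?_) hn
      rw [lG, lG]
      congr 1
      rw [tor_eq_iff, add_sub_cancel_left]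
      exact hn
    have h2 : ∀ w, ‖G1 w - H1 w‖ < δ := by
      intro w
      have := hcl 0 (Nat.zero_le _) w
      rwa [norm_iteratedFDeriv_zero] at this
    have h3 : G1 (z + n) - G1 z - n = (G1 (z + n) - H1 (z + n)) - (G1 z - H1 z) := by
      rw [hH1per z n hn]
      abel
    have h4 : ‖G1 (z + n) - G1 z - n‖ < 1 := by
      rw [h3]
      refine (norm_sub_le _ _).trans_lt ?_
      linarith [h2 (z + n), h2 z]
    have h5 := isInt_small h1 h4
    have h6 : G1 (z + n) = (G1 (z + n) - G1 z - n) + (G1 z + n) := by abel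
    rw [h6, h5, zero_add]
  have hG1' : LD r G1 := lift d r g G1 hg.diffeo hG1.continuous lG hG1per
  have hP1 : Pres G1 (std d) := std' d r g G1 hg hG1.continuous lG hG1per
  have hG2 := cjld d r A.symm (intAut_symm hA) G1 hG1'
  exact ⟨(cjst d r A.symm T.symm (intAut_symm hA) hT' hT g).1 hg.diffeo,
    isFlag_mapA (isFlag_std d) A.symm, cj A.symm G1, hG2.smooth.continuous, lift_cj hT' hT lG,
    hG2.per, pres_cj hP1 A.symm⟩

theorem per_nonempty {d : ℕ} {g : Torus d ≃ₜ Torus d} (hg : Conv g) : (Per g).Nonempty := by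
  obtain ⟨p, n, hn, hp, -⟩ := hg.2 (fun n => g^[n] (toTorus 0)) (by
    have : (fun n => dist (g (g^[n] (toTorus 0))) (g^[n + 1] (toTorus 0))) = fun _ => (0 : ℝ) := by
      funext n
      rw [Function.iterate_succ_apply', dist_self]
    rw [this]
    exact tendsto_const_nhds)
  exact ⟨p, n, hn, hp⟩

/-- **Density of hyperbolicity.** -/
theorem dens (hPRIM : S_PRIM) (hAX : S_CJAX) {d : ℕ} {r : ℕ∞} (hr : 1 ≤ r)
    {f : Torus d ≃ₜ Torus d} {V : ℕ → Submodule ℝ (Fin d → ℝ)} (hf : PreservesFlag r f V) (k : ℕ)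
    (hk : (k : ℕ∞) ≤ r) (ε : ℝ) (hε : 0 < ε) : ∃ (g : Torus d ≃ₜ Torus d)
      (W : ℕ → Submodule ℝ (Fin d → ℝ)), PreservesFlag r g W ∧ (∀ n, IsRat (W n)) ∧
      CkClose toTorus k ε f g ∧ ChainHyp toTorus g ∧ AxiomA toTorus g ∧ NoCycle g ∧
      (ChainRec g).Finite ∧ (Omega g).Finite ∧ (Omega g).Nonempty := by
  obtain ⟨A, T, h, hA, hT, hT', hh, hc, H, hH, hHl⟩ := exists_rat hPRIM hr hf k hk (ε / 2)
    (half_pos hε)
  obtain ⟨δ, hδ, hcj⟩ := (cjst d r A.symm T.symm (intAut_symm hA) hT' hT h).2.1 k (ε / 2)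
    (half_pos hε)
  obtain ⟨g, hg, hgc, hgC, hgH⟩ := density_close hr h hh k hk (min δ (1 / 2))
    (lt_min hδ (by norm_num))
  obtain ⟨a1, a2, a3, a4, a5, a6⟩ := all_of_conv g hgC hgH
  obtain ⟨b1, b2, b3, b4, b5⟩ := hAX d A.symm T.symm (intAut_symm hA) hT' hT g
  refine ⟨cjT T.symm g, _, pres_of_close hA hT hT' hH hHl hg (min_le_right _ _) hgc,
    fun n => isRat_mapA (isRat_std d n) (intAut_symm hA), ?_, b2 a2, b1 a3, b3 a4, b5 a1, b4 a6, ?_⟩
  · have h1 := hcj h g (ckClose_mono hgc le_rfl (min_le_left _ _))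
    have h2 := ckClose_trans hc h1
    rwa [add_halves] at h2
  · obtain ⟨p, hp⟩ := per_nonempty hgC
    exact ⟨T.symm p, omega_sub T.symm g (by rw [a5]; exact hp)⟩

/-- **Finitely many attractors.** -/
theorem attr (hPRIM : S_PRIM) (hAX : S_CJAX) (hAT : S_CJATT) {d : ℕ} {r : ℕ∞} (hr : 1 ≤ r)
    {f : Torus d ≃ₜ Torus d} {V : ℕ → Submodule ℝ (Fin d → ℝ)} (hf : PreservesFlag r f V) (k : ℕ)
    (hk : (k : ℕ∞) ≤ r) (ε : ℝ) (hε : 0 < ε) : ∃ (g : Torus d ≃ₜ Torus d)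
      (W : ℕ → Submodule ℝ (Fin d → ℝ)), PreservesFlag r g W ∧
      CkClose toTorus k ε f g ∧ ∃ η : ℝ, 0 < η ∧ ∀ h : Torus d ≃ₜ Torus d,
        CkClose toTorus 1 η g h → FinitelyManyAttractors h ∧ (ChainRec h).Finite := by
  obtain ⟨A, T, h, hA, hT, hT', hh, hc, H, hH, hHl⟩ := exists_rat hPRIM hr hf k hk (ε / 2)
    (half_pos hε)
  obtain ⟨δ, hδ, hcj⟩ := (cjst d r A.symm T.symm (intAut_symm hA) hT' hT h).2.1 k (ε / 2)
    (half_pos hε)
  obtain ⟨g, hg, hgc, η, hη, hgη⟩ := Pool.Agent.H678R3.Attr.main hr h hh k hk (min δ (1 / 2))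
    (lt_min hδ (by norm_num))
  obtain ⟨η', hη', hcj'⟩ := (cjst d r A T hA hT hT' h).2.1 1 η hη
  refine ⟨cjT T.symm g, _, pres_of_close hA hT hT' hH hHl hg (min_le_right _ _) hgc, ?_, η', hη',
    fun h' hh' => ?_⟩
  · have h1 := hcj h g (ckClose_mono hgc le_rfl (min_le_left _ _))
    have h2 := ckClose_trans hc h1
    rwa [add_halves] at h2
  · have h1 := hcj' _ _ hh'
    rw [cjT_symm''] at h1
    obtain ⟨h2, h3⟩ := hgη _ h1
    have h4 := hAT d A.symm T.symm (intAut_symm hA) hT' hT _ h3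
    have h5 := (hAX d A.symm T.symm (intAut_symm hA) hT' hT _).2.2.2.2 h2
    rw [cjT_symm'] at h4 h5
    exact ⟨h4, h5⟩

end Pool.Agent.Y318.LF
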