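import Pool.Agent.Y318.LF.Ratl

set_option autoImplicit false

open Set Filter Topology

namespace Pool.Agent.Y318.LF

open Pool.Agent.H728R2.OS Pool.Agent.H637R2.TD

/-- `Fin.tail`, continuous -/
noncomputable def tailC (d : ℕ) : (Fin (d + 1) → ℝ) →L[ℝ] (Fin d → ℝ) :=
  ContinuousLinearMap.pi fun i => ContinuousLinearMap.proj i.succ

theorem tailC_apply {d : ℕ} (z : Fin (d + 1) → ℝ) : tailC d z = Fin.tail z := rfl

theorem tailC_norm (d : ℕ) : ‖tailC d‖ ≤ 1 := by
  refine ContinuousLinearMap.opNorm_le_bound _ zero_le_one fun z => ?_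
  rw [one_mul, pi_norm_le_iff_of_nonneg (norm_nonneg _)]
  exact fun i => norm_le_pi_norm z i.succ

/-- `cons 0`, a linear isometry -/
noncomputable def consI (d : ℕ) : (Fin d → ℝ) →ₗᵢ[ℝ] (Fin (d + 1) → ℝ) where
  toFun x := Fin.cons (α := fun _ => ℝ) (0 : ℝ) x
  map_add' a b := by
    funext i
    refine Fin.cases ?_ (fun i => ?_) i
    · simp
    · simp
  map_smul' c a := by
    funext i
    refine Fin.cases ?_ (fun i => ?_) i
    · simp
    · simp
  norm_map' x := by
    show ‖(Fin.cons (α := fun _ => ℝ) (0 : ℝ) x : Fin (d + 1) → ℝ)‖ = ‖x‖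
    apply le_antisymm
    · rw [pi_norm_le_iff_of_nonneg (norm_nonneg _)]
      intro i
      refine Fin.cases ?_ (fun i => ?_) i
      · simp
      · simpa using norm_le_pi_norm x i
    · rw [pi_norm_le_iff_of_nonneg (norm_nonneg _)]
      intro i
      have := norm_le_pi_norm (Fin.cons (α := fun _ => ℝ) (0 : ℝ) x : Fin (d + 1) → ℝ) i.succ
      simpa using this

theorem consI_apply {d : ℕ} (x : Fin d → ℝ) :
    consI d x = (Fin.cons (α := fun _ => ℝ) (0 : ℝ) x : Fin (d + 1) → ℝ) := rfl

theorem tail : S_TAIL := by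
  intro d k ε U hU hε hs j hj z
  have e : (fun z : Fin (d + 1) → ℝ => Fin.cons (α := fun _ => ℝ) (0 : ℝ) (U (Fin.tail z))) =
      consI d ∘ (U ∘ tailC d) := rfl
  have hUj : ContDiff ℝ j U := hU.of_le (by exact_mod_cast hj)
  rw [e, (consI d).norm_iteratedFDeriv_comp_left ((hUj.comp (tailC d).contDiff).contDiffAt) le_rfl,
    (tailC d).iteratedFDeriv_comp_right hUj z le_rfl]
  refine (ContinuousMultilinearMap.norm_compContinuousLinearMap_le _ _).trans_lt ?_
  refine lt_of_le_of_lt ?_ (hs j hj (tailC d z))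
  refine mul_le_of_le_one_right (norm_nonneg _) ?_
  exact Finset.prod_le_one (fun _ _ => norm_nonneg _) (fun _ _ => tailC_norm d)

theorem tail_cons0 {d : ℕ} (x : Fin d → ℝ) : Fin.tail (consI d x) = x := by
  rw [consI_apply, Fin.tail_cons]

theorem isInt_consI {d : ℕ} {n : Fin d → ℝ} (hn : IsInt n) : IsInt (consI d n) := by
  rw [isInt_cons, tail_cons0]
  exact ⟨⟨0, by simp [consI_apply]⟩, hn⟩

theorem quot : S_QUOT := by
  intro d r F hF h1 h2
  obtain ⟨G, hG, hGF, hFG⟩ := hF.inv
  have h2' := h2 G hG.continuous hGF hFG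
  have key : ∀ (H : (Fin (d + 1) → ℝ) → (Fin (d + 1) → ℝ)),
      (∀ z w, Fin.tail w = 0 → Fin.tail (H (z + w)) = Fin.tail (H z)) →
      ∀ z, Fin.tail (H z) = Fin.tail (H (consI d (Fin.tail z))) := by
    intro H hH z
    have := hH (consI d (Fin.tail z)) (z - consI d (Fin.tail z)) (by
      have : Fin.tail (z - consI d (Fin.tail z)) = Fin.tail z - Fin.tail (consI d (Fin.tail z)) := rfl
      rw [this, tail_cons0, sub_self])
    rw [add_sub_cancel] at this
    exact this
  refine ⟨fun x => Fin.tail (F (consI d x)), ⟨?_, ?_, fun x => Fin.tail (G (consI d x)), ?_, ?_, ?_⟩,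
    key F h1⟩
  · exact (tailC d).contDiff.comp (hF.smooth.comp (consI d).contDiff)
  · intro z n hn
    rw [map_add, hF.per _ _ (isInt_consI hn)]
    have : Fin.tail (F (consI d z) + consI d n) = Fin.tail (F (consI d z)) +
      Fin.tail (consI d n) := rfl
    rw [this, tail_cons0]
  · exact (tailC d).contDiff.comp (hG.comp (consI d).contDiff)
  · intro z
    show Fin.tail (G (consI d (Fin.tail (F (consI d z))))) = z
    rw [← key G h2', hGF, tail_cons0]
  · intro z
    show Fin.tail (F (consI d (Fin.tail (G (consI d z))))) = z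
    rw [← key F h1, hFG, tail_cons0]

theorem recomb : S_RECOMB := by
  intro d r F F' F'' hF hF' hF'' ht
  obtain ⟨G, hG, hGF, hFG⟩ := hF.inv
  obtain ⟨G', hG', hGF', hFG'⟩ := hF'.inv
  obtain ⟨G'', hG'', hGF'', hFG''⟩ := hF''.inv
  have tadd : ∀ a b : Fin (d + 1) → ℝ, Fin.tail (a + b) = Fin.tail a + Fin.tail b := fun _ _ => rfl
  refine ⟨?_, ?_, fun y => G (y + consI d (F' (G'' (Fin.tail y)) - Fin.tail y)), ?_, ?_, ?_⟩
  · exact hF.smooth.add ((consI d).contDiff.comp ((hF''.smooth.comp (tailC d).contDiff).sub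
      (hF'.smooth.comp (tailC d).contDiff)))
  · intro z n hn
    have hn' : IsInt (Fin.tail n) := (isInt_cons.1 hn).2
    rw [hF.per z n hn, tadd, hF'.per _ _ hn', hF''.per _ _ hn']
    have : F'' (Fin.tail z) + Fin.tail n - (F' (Fin.tail z) + Fin.tail n) =
      F'' (Fin.tail z) - F' (Fin.tail z) := by abel
    rw [this]
    abel
  · exact hG.comp (contDiff_id.add ((consI d).contDiff.comp ((hF'.smooth.comp
      (hG''.comp (tailC d).contDiff)).sub (tailC d).contDiff)))
  · intro z
    have e : Fin.tail (F z + consI d (F'' (Fin.tail z) - F' (Fin.tail z))) = F'' (Fin.tail z) := by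
      rw [tadd, tail_cons0, ht]
      abel
    show G (F z + consI d (F'' (Fin.tail z) - F' (Fin.tail z)) +
      consI d (F' (G'' (Fin.tail (F z + consI d (F'' (Fin.tail z) - F' (Fin.tail z))))) -
        Fin.tail (F z + consI d (F'' (Fin.tail z) - F' (Fin.tail z))))) = z
    rw [e, hGF'', add_assoc, ← map_add]
    have : F'' (Fin.tail z) - F' (Fin.tail z) + (F' (Fin.tail z) - F'' (Fin.tail z)) = 0 := by abel
    rw [this, map_zero, add_zero, hGF]
  · intro y
    show F (G (y + consI d (F' (G'' (Fin.tail y)) - Fin.tail y))) +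
      consI d (F'' (Fin.tail (G (y + consI d (F' (G'' (Fin.tail y)) - Fin.tail y)))) -
        F' (Fin.tail (G (y + consI d (F' (G'' (Fin.tail y)) - Fin.tail y))))) = y
    have e1 : Fin.tail (y + consI d (F' (G'' (Fin.tail y)) - Fin.tail y)) =
        F' (G'' (Fin.tail y)) := by
      rw [tadd, tail_cons0]
      abel
    have e2 : Fin.tail (G (y + consI d (F' (G'' (Fin.tail y)) - Fin.tail y))) =
        G'' (Fin.tail y) := by
      have h3 := ht (G (y + consI d (F' (G'' (Fin.tail y)) - Fin.tail y)))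
      rw [hFG, e1] at h3
      rw [← hGF' (Fin.tail (G _)), ← h3, hGF']
    rw [hFG, e2, hFG'', add_assoc, ← map_add]
    have : F' (G'' (Fin.tail y)) - Fin.tail y + (Fin.tail y - F' (G'' (Fin.tail y))) = 0 := by abel
    rw [this, map_zero, add_zero]

end Pool.Agent.Y318.LF
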