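import Pool.Agent.Y318.LF.Stm

set_option autoImplicit false

open Set Filter Topology

namespace Pool.Agent.Y318.LF

open Pool.Agent.H728R2.OS Pool.Agent.H637R2.TD

theorem isInt_zero {d : ℕ} : IsInt (0 : Fin d → ℝ) := fun _ => ⟨0, by simp⟩

theorem isInt_add {d : ℕ} {a b : Fin d → ℝ} (ha : IsInt a) (hb : IsInt b) : IsInt (a + b) := by
  intro i
  obtain ⟨m, hm⟩ := ha i
  obtain ⟨n, hn⟩ := hb i
  exact ⟨m + n, by rw [Pi.add_apply, hm, hn]; push_cast; ring⟩

theorem isInt_neg {d : ℕ} {a : Fin d → ℝ} (ha : IsInt a) : IsInt (-a) := by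
  intro i
  obtain ⟨m, hm⟩ := ha i
  exact ⟨-m, by rw [Pi.neg_apply, hm]; push_cast; ring⟩

theorem intAut_symm {d : ℕ} {A : (Fin d → ℝ) ≃L[ℝ] (Fin d → ℝ)} (hA : IntAut A) :
    IntAut A.symm := by
  intro z
  rw [← hA (A.symm z), A.apply_symm_apply]

theorem intAut_trans {d : ℕ} {A B : (Fin d → ℝ) ≃L[ℝ] (Fin d → ℝ)} (hA : IntAut A)
    (hB : IntAut B) : IntAut (A.trans B) := by
  intro z
  rw [ContinuousLinearEquiv.trans_apply, hB, hA]

theorem sml_add {d k : ℕ} {a b : ℝ} {U W : (Fin d → ℝ) → (Fin d → ℝ)} (hU : ContDiff ℝ k U)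
    (hW : ContDiff ℝ k W) (h1 : Sml k a U) (h2 : Sml k b W) : Sml k (a + b) (fun z => U z + W z) := by
  intro j hj z
  have h := iteratedFDeriv_add_apply (𝕜 := ℝ) (i := j) (x := z)
    ((hU.of_le (by exact_mod_cast hj)).contDiffAt) ((hW.of_le (by exact_mod_cast hj)).contDiffAt)
  have e : (fun z => U z + W z) = U + W := rfl
  rw [e, h]
  exact (norm_add_le _ _).trans_lt (add_lt_add (h1 j hj z) (h2 j hj z))

theorem sml_zero {d k : ℕ} {ε : ℝ} (hε : 0 < ε) : Sml k ε (fun _ : Fin d → ℝ => (0 : Fin d → ℝ)) := by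
  intro j _ z
  have h0 : iteratedFDeriv ℝ j (fun _ : Fin d → ℝ => (0 : Fin d → ℝ)) = 0 := iteratedFDeriv_fun_zero
  rw [h0]
  simpa using hε

theorem mem_std {d k : ℕ} {z : Fin d → ℝ} : z ∈ std d k ↔ ∀ j : Fin d, k ≤ (j : ℕ) → z j = 0 :=
  Iff.rfl

theorem mem_std_succ {d k : ℕ} {z : Fin (d + 1) → ℝ} :
    z ∈ std (d + 1) (k + 1) ↔ Fin.tail z ∈ std d k := by
  rw [mem_std, mem_std]
  constructor
  · intro h j hj
    exact h j.succ (by simpa using hj)
  · intro h j hj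
    obtain ⟨i, rfl⟩ := Fin.exists_succ_eq.2 (show j ≠ 0 by rintro rfl; simp at hj)
    exact h i (by simpa using hj)

theorem mem_std_one {d : ℕ} {z : Fin (d + 1) → ℝ} : z ∈ std (d + 1) 1 ↔ Fin.tail z = 0 := by
  refine (mem_std_succ (k := 0)).trans ?_
  rw [mem_std]
  constructor
  · intro h
    funext j
    exact h j (Nat.zero_le _)
  · intro h j _
    rw [h]
    rfl

/-- `Fin.tail` as a linear map -/
def tailL (d : ℕ) : (Fin (d + 1) → ℝ) →ₗ[ℝ] (Fin d → ℝ) where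
  toFun := Fin.tail
  map_add' _ _ := rfl
  map_smul' _ _ := rfl

theorem tailL_apply {d : ℕ} (z : Fin (d + 1) → ℝ) : tailL d z = Fin.tail z := rfl

/-- the extension `1 × A` -/
def extL {d : ℕ} (A : (Fin d → ℝ) ≃ₗ[ℝ] (Fin d → ℝ)) : (Fin (d + 1) → ℝ) ≃ₗ[ℝ] (Fin (d + 1) → ℝ) where
  toFun z := Fin.cons (α := fun _ => ℝ) (z 0) (A (Fin.tail z))
  invFun z := Fin.cons (α := fun _ => ℝ) (z 0) (A.symm (Fin.tail z))
  map_add' a b := by
    funext i
    refine Fin.cases ?_ (fun i => ?_) i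
    · simp
    · show A (Fin.tail (a + b)) i = A (Fin.tail a) i + A (Fin.tail b) i
      have : Fin.tail (a + b) = Fin.tail a + Fin.tail b := rfl
      rw [this, map_add]
      rfl
  map_smul' c a := by
    funext i
    refine Fin.cases ?_ (fun i => ?_) i
    · simp
    · show A (Fin.tail (c • a)) i = c * A (Fin.tail a) i
      have : Fin.tail (c • a) = c • Fin.tail a := rfl
      rw [this, map_smul]
      rfl
  left_inv z := by
    funext i
    refine Fin.cases ?_ (fun i => ?_) i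
    · simp
    · simp [Fin.tail]
  right_inv z := by
    funext i
    refine Fin.cases ?_ (fun i => ?_) i
    · simp
    · simp [Fin.tail]

/-- the extension `1 × A`, continuous -/
noncomputable def ext {d : ℕ} (A : (Fin d → ℝ) ≃L[ℝ] (Fin d → ℝ)) :
    (Fin (d + 1) → ℝ) ≃L[ℝ] (Fin (d + 1) → ℝ) :=
  (extL A.toLinearEquiv).toContinuousLinearEquiv

theorem ext_apply {d : ℕ} (A : (Fin d → ℝ) ≃L[ℝ] (Fin d → ℝ)) (z : Fin (d + 1) → ℝ) :
    ext A z = Fin.cons (α := fun _ => ℝ) (z 0) (A (Fin.tail z)) := rfl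

theorem ext_symm_apply {d : ℕ} (A : (Fin d → ℝ) ≃L[ℝ] (Fin d → ℝ)) (z : Fin (d + 1) → ℝ) :
    (ext A).symm z = Fin.cons (α := fun _ => ℝ) (z 0) (A.symm (Fin.tail z)) := rfl

theorem isInt_cons {d : ℕ} {z : Fin (d + 1) → ℝ} :
    IsInt z ↔ (∃ n : ℤ, z 0 = n) ∧ IsInt (Fin.tail z) := by
  constructor
  · intro h
    exact ⟨h 0, fun i => h i.succ⟩
  · rintro ⟨h0, h1⟩ i
    refine Fin.cases h0 (fun i => h1 i) i

theorem intAut_ext {d : ℕ} {A : (Fin d → ℝ) ≃L[ℝ] (Fin d → ℝ)} (hA : IntAut A) :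
    IntAut (ext A) := by
  intro z
  rw [isInt_cons, isInt_cons, ext_apply, Fin.cons_zero, Fin.tail_cons, hA]

/-- the linear map `x + l(x) u` -/
def gL {d : ℕ} (l : (Fin d → ℝ) →L[ℝ] ℝ) (u : Fin d → ℝ) : (Fin d → ℝ) →ₗ[ℝ] (Fin d → ℝ) where
  toFun x := x + l x • u
  map_add' a b := by rw [map_add, add_smul]; abel
  map_smul' c a := by simp [smul_add, smul_smul]

theorem gL_apply {d : ℕ} (l : (Fin d → ℝ) →L[ℝ] ℝ) (u x : Fin d → ℝ) : gL l u x = x + l x • u := rfl

theorem gL_inj {d : ℕ} (l : (Fin d → ℝ) →L[ℝ] ℝ) (u : Fin d → ℝ) (h : 1 + l u ≠ 0) :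
    Function.Injective (gL l u) := by
  rw [← LinearMap.ker_eq_bot, LinearMap.ker_eq_bot']
  intro x hx
  rw [gL_apply] at hx
  have h1 : l x * (1 + l u) = 0 := by
    have := congrArg l hx
    rw [map_add, map_smul, map_zero, smul_eq_mul] at this
    linarith
  have h2 : l x = 0 := by
    rcases mul_eq_zero.1 h1 with h3 | h3
    · exact h3
    · exact absurd h3 h
  rw [h2, zero_smul, add_zero] at hx
  exact hx

theorem isFlag_map {d : ℕ} {V : ℕ → Submodule ℝ (Fin d → ℝ)} (hV : IsFlag V)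
    (g : (Fin d → ℝ) →ₗ[ℝ] (Fin d → ℝ)) (hg : Function.Injective g) :
    IsFlag (fun k => (V k).map g) := by
  refine ⟨fun a b hab => Submodule.map_mono (hV.mono hab), fun k hk => ?_⟩
  exact (Submodule.equivMapOfInjective g hg (V k)).finrank_eq.symm.trans (hV.dim k hk)

theorem exists_gen {d : ℕ} {V : ℕ → Submodule ℝ (Fin (d + 1) → ℝ)} (hV : IsFlag V) :
    ∃ v : Fin (d + 1) → ℝ, v ≠ 0 ∧ ∀ w, w ∈ V 1 ↔ ∃ c : ℝ, w = c • v := by
  have h1 := hV.dim 1 (by omega)
  obtain ⟨⟨v, hv⟩, hv0, hv1⟩ := finrank_eq_one_iff'.1 h1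
  refine ⟨v, fun h => hv0 (Subtype.ext h), fun w => ⟨fun hw => ?_, ?_⟩⟩
  · obtain ⟨c, hc⟩ := hv1 ⟨w, hw⟩
    exact ⟨c, (congrArg Subtype.val hc).symm⟩
  · rintro ⟨c, rfl⟩
    exact (V 1).smul_mem c hv

/-- the vectors along which `F - id` is constant modulo `V 1` -/
def SS {d : ℕ} (F : (Fin d → ℝ) → (Fin d → ℝ)) (U : Submodule ℝ (Fin d → ℝ)) :
    AddSubgroup (Fin d → ℝ) where
  carrier := {w | ∀ z, F (z + w) - F z - w ∈ U}
  zero_mem' := fun z => by simp
  add_mem' := fun {a b} ha hb z => by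
    have h := U.add_mem (hb (z + a)) (ha z)
    have e : F (z + (a + b)) - F z - (a + b) =
        F (z + a + b) - F (z + a) - b + (F (z + a) - F z - a) := by
      rw [add_assoc]; abel
    rw [e]
    exact h
  neg_mem' := fun {a} ha z => by
    have h := U.neg_mem (ha (z - a))
    have e : F (z + -a) - F z - -a = -(F (z - a + a) - F (z - a) - a) := by
      rw [sub_add_cancel, sub_eq_add_neg z a]; abel
    rw [e]
    exact h

theorem mem_SS {d : ℕ} {F : (Fin d → ℝ) → (Fin d → ℝ)} {U : Submodule ℝ (Fin d → ℝ)}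
    {w : Fin d → ℝ} : w ∈ SS F U ↔ ∀ z, F (z + w) - F z - w ∈ U := Iff.rfl

theorem isClosed_SS {d : ℕ} {F : (Fin d → ℝ) → (Fin d → ℝ)} (hF : Continuous F)
    (U : Submodule ℝ (Fin d → ℝ)) : IsClosed (SS F U : Set (Fin d → ℝ)) := by
  have : (SS F U : Set (Fin d → ℝ)) = ⋂ z, (fun w => F (z + w) - F z - w) ⁻¹' (U : Set (Fin d → ℝ)) := by
    ext w
    simp only [SetLike.mem_coe, mem_SS, mem_iInter, mem_preimage]
  rw [this]
  refine isClosed_iInter fun z => IsClosed.preimage ?_ U.closed_of_finiteDimensional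
  exact ((hF.comp (continuous_const.add continuous_id)).sub continuous_const).sub continuous_id

/-- Step 1: make the first leaf rational. -/
theorem step1 (hSUBG : S_SUBG) (hDIR : S_DIR) (hPERT : S_PERT) {d : ℕ} {r : ℕ∞} (hr : 1 ≤ r)
    {F : (Fin (d + 1) → ℝ) → (Fin (d + 1) → ℝ)} {V : ℕ → Submodule ℝ (Fin (d + 1) → ℝ)}
    (hF : LD r F) (hV : IsFlag V) (hP : Pres F V) (k : ℕ) (hk : (k : ℕ∞) ≤ r) (ε : ℝ)
    (hε : 0 < ε) : ∃ (F' : (Fin (d + 1) → ℝ) → (Fin (d + 1) → ℝ))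
      (V' : ℕ → Submodule ℝ (Fin (d + 1) → ℝ)), LD r F' ∧ IsFlag V' ∧ Pres F' V' ∧
      Sml k ε (fun z => F' z - F z) ∧ ∃ b, IsInt b ∧ b ≠ 0 ∧ b ∈ V' 1 := by
  obtain ⟨v, hv0, hv⟩ := exists_gen hV
  obtain ⟨i, hi⟩ : ∃ i, v i ≠ 0 := by
    by_contra h
    push Not at h
    exact hv0 (funext h)
  obtain ⟨l, hl⟩ : ∃ l : (Fin (d + 1) → ℝ) →L[ℝ] ℝ, l v = 1 :=
    ⟨(v i)⁻¹ • ContinuousLinearMap.proj (R := ℝ) i, by simp [hi]⟩
  obtain ⟨δ1, hδ1, h1⟩ := hSUBG _ (SS F (V 1)) (isClosed_SS hF.smooth.continuous _)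
  obtain ⟨δ2, hδ2, h2⟩ := hPERT _ r hr F hF l k hk ε hε
  have hvn : 0 < ‖v‖ := norm_pos_iff.2 hv0
  have hl1 : 0 < ‖l‖ + 1 := by positivity
  obtain ⟨q, hq, b, hb, hqb⟩ := hDIR _ v (min (min δ1 δ2) (min ‖v‖ (1 / (‖l‖ + 1))))
    (lt_min (lt_min hδ1 hδ2) (lt_min hvn (by positivity)))
  have hq1 : (1 : ℝ) ≤ q := by exact_mod_cast hq
  have hq0 : (0 : ℝ) < q := by linarith
  have a1 : ‖(q : ℝ) • v - b‖ < δ1 := hqb.trans_le ((min_le_left _ _).trans (min_le_left _ _))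
  have a2 : ‖(q : ℝ) • v - b‖ < δ2 := hqb.trans_le ((min_le_left _ _).trans (min_le_right _ _))
  have a3 : ‖(q : ℝ) • v - b‖ < ‖v‖ := hqb.trans_le ((min_le_right _ _).trans (min_le_left _ _))
  have a4 : ‖(q : ℝ) • v - b‖ < 1 / (‖l‖ + 1) :=
    hqb.trans_le ((min_le_right _ _).trans (min_le_right _ _))
  have hb0 : b ≠ 0 := by
    rintro rfl
    rw [sub_zero, norm_smul, Real.norm_eq_abs, abs_of_pos hq0] at a3
    nlinarith
  -- membership in the subgroup
  have m1 : ∀ c : ℝ, c • v ∈ SS F (V 1) := by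
    intro c z
    have hc : c • v ∈ V 1 := (hv _).2 ⟨c, rfl⟩
    exact (V 1).sub_mem (hP 1 z _ hc) hc
  have m2 : b ∈ SS F (V 1) := by
    intro z
    rw [hF.per z b hb]
    simp
  have m3 : ∀ c : ℝ, c • ((q : ℝ) • v - b) ∈ SS F (V 1) :=
    h1 _ ((SS F (V 1)).sub_mem (m1 _) m2) a1
  obtain ⟨u, hu⟩ : ∃ u, u = (q : ℝ)⁻¹ • b - v := ⟨_, rfl⟩
  have hu' : u = (-(q : ℝ)⁻¹) • ((q : ℝ) • v - b) := by
    rw [hu, smul_sub, smul_smul, neg_mul, inv_mul_cancel₀ hq0.ne', neg_smul, one_smul, neg_smul]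
    abel
  have hun : ‖u‖ ≤ ‖(q : ℝ) • v - b‖ := by
    rw [hu', norm_smul, norm_neg, norm_inv, Real.norm_eq_abs, abs_of_pos hq0]
    have : (q : ℝ)⁻¹ ≤ 1 := inv_le_one_of_one_le₀ hq1
    calc (q : ℝ)⁻¹ * ‖(q : ℝ) • v - b‖ ≤ 1 * ‖(q : ℝ) • v - b‖ :=
          mul_le_mul_of_nonneg_right this (norm_nonneg _)
      _ = _ := one_mul _
  have m4 : ∀ c : ℝ, c • u ∈ SS F (V 1) := by
    intro c
    rw [hu', smul_smul]
    exact m3 _
  obtain ⟨b1, b2⟩ := h2 u (hun.trans_lt a2)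
  have hlu : 1 + l u ≠ 0 := by
    have h3 : |l u| < 1 := by
      calc |l u| = ‖l u‖ := (Real.norm_eq_abs _).symm
        _ ≤ ‖l‖ * ‖u‖ := l.le_opNorm u
        _ ≤ ‖l‖ * (1 / (‖l‖ + 1)) :=
          mul_le_mul_of_nonneg_left (hun.trans a4.le) (norm_nonneg _)
        _ < 1 := by
          rw [mul_one_div, div_lt_one hl1]
          linarith
    have := (abs_lt.1 h3).1
    intro h
    linarith
  have hinj := gL_inj l u hlu
  refine ⟨fun z => F z + l (F z - z) • u, fun k => (V k).map (gL l u), b1, isFlag_map hV _ hinj,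
    ?_, ?_, b, hb, hb0, ?_⟩
  · -- the flag is preserved
    rintro n z w ⟨x, hx, rfl⟩
    have key : F (z + gL l u x) - (z + gL l u x) - (F z - z) ∈ V n := by
      rcases Nat.eq_zero_or_pos n with rfl | hn
      · have hx0 : x = 0 := by
          have := hV.dim 0 (Nat.zero_le _)
          rw [Submodule.finrank_eq_zero] at this
          rw [this] at hx
          exact hx
        rw [hx0, map_zero, add_zero]
        simp
      · have e1 := hP n z x hx
        have e2 := hV.mono hn (m4 (l x) (z + x))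
        have e3 := (V n).add_mem ((V n).sub_mem e1 hx) e2
        convert e3 using 1
        rw [gL_apply, ← add_assoc]
        abel
    refine ⟨x + (F (z + gL l u x) - (z + gL l u x) - (F z - z)), (V n).add_mem hx key, ?_⟩
    rw [map_add, gL_apply l u (F (z + gL l u x) - (z + gL l u x) - (F z - z)), map_sub l _ (F z - z),
      sub_smul]
    show _ = (F (z + gL l u x) + l (F (z + gL l u x) - (z + gL l u x)) • u) -
      (F z + l (F z - z) • u)
    abel
  · have e : (fun z => F z + l (F z - z) • u - F z) = fun z => l (F z - z) • u := by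
      funext z
      abel
    rw [e]
    exact b2
  · refine ⟨(q : ℝ) • v, (hv _).2 ⟨_, rfl⟩, ?_⟩
    rw [gL_apply, map_smul, hl, smul_eq_mul, mul_one, hu, smul_sub, smul_smul,
      mul_inv_cancel₀ hq0.ne', one_smul]
    abel

theorem pres_cj {d : ℕ} {F : (Fin d → ℝ) → (Fin d → ℝ)} {V : ℕ → Submodule ℝ (Fin d → ℝ)}
    (hP : Pres F V) (A : (Fin d → ℝ) ≃L[ℝ] (Fin d → ℝ)) :
    Pres (cj A F) (fun k => (V k).map (A : (Fin d → ℝ) →ₗ[ℝ] (Fin d → ℝ))) := by
  rintro k z w ⟨x, hx, rfl⟩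
  refine ⟨F (A.symm z + x) - F (A.symm z), hP k _ _ hx, ?_⟩
  show A (F (A.symm z + x) - F (A.symm z)) = A (F (A.symm (z + A x))) - A (F (A.symm z))
  rw [map_sub, map_add A.symm, A.symm_apply_apply]

theorem isFlag_mapA {d : ℕ} {V : ℕ → Submodule ℝ (Fin d → ℝ)} (hV : IsFlag V)
    (A : (Fin d → ℝ) ≃L[ℝ] (Fin d → ℝ)) :
    IsFlag (fun k => (V k).map (A : (Fin d → ℝ) →ₗ[ℝ] (Fin d → ℝ))) :=
  isFlag_map hV _ A.injective

/-- the quotient flag -/
theorem isFlag_quot {d : ℕ} {V : ℕ → Submodule ℝ (Fin (d + 1) → ℝ)} (hV : IsFlag V)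
    (h1 : ∀ w, w ∈ V 1 ↔ Fin.tail w = 0) : IsFlag (fun k => (V (k + 1)).map (tailL d)) := by
  refine ⟨fun a b hab => Submodule.map_mono (hV.mono (by omega)), fun k hk => ?_⟩
  have e1 := hV.dim (k + 1) (by omega)
  have e2 := LinearMap.finrank_range_add_finrank_ker ((tailL d).domRestrict (V (k + 1)))
  have e3 : LinearMap.range ((tailL d).domRestrict (V (k + 1))) = (V (k + 1)).map (tailL d) := by
    rw [LinearMap.range_domRestrict]
  have e4 : LinearMap.ker ((tailL d).domRestrict (V (k + 1))) =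
      (V 1).comap (V (k + 1)).subtype := by
    ext ⟨x, hx⟩
    rw [LinearMap.mem_ker, Submodule.mem_comap]
    exact (h1 x).symm
  have e5 : Module.finrank ℝ ((V 1).comap (V (k + 1)).subtype) = 1 :=
    (Submodule.comapSubtypeEquivOfLe (hV.mono (by omega : 1 ≤ k + 1))).finrank_eq.trans
      (hV.dim 1 (by omega))
  rw [e3, e4, e5, e1] at e2
  omega

theorem sml_mono {d k : ℕ} {a b : ℝ} (h : a ≤ b) {U : (Fin d → ℝ) → (Fin d → ℝ)}
    (hU : Sml k a U) : Sml k b U := fun j hj z => (hU j hj z).trans_le h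

/-- Approximation by maps preserving a rational flag. -/
theorem ratl (hSUBG : S_SUBG) (hDIR : S_DIR) (hPRIM : S_PRIM) (hPERT : S_PERT) (hINV : S_INV)
    (hQUOT : S_QUOT) (hREC : S_RECOMB) (hTAIL : S_TAIL) (hCJLD : S_CJLD) (hCJS : S_CJSML) :
    S_RATL := by
  intro d
  induction d with
  | zero =>
    intro r hr F V hF hV hP k hk ε hε
    refine ⟨F, hF, ?_, ContinuousLinearEquiv.refl ℝ _, fun z => Iff.rfl, fun n z w _ j => ?_⟩
    · have : (fun z => F z - F z) = fun _ => (0 : Fin 0 → ℝ) := by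
        funext z
        exact sub_self _
      rw [this]
      exact sml_zero hε
    · exact j.elim0
  | succ d ih =>
    intro r hr F V hF hV hP k hk ε hε
    obtain ⟨F1, V1, hF1, hV1, hP1, hs1, b, hb, hb0, hbV⟩ :=
      step1 hSUBG hDIR hPERT hr hF hV hP k hk (ε / 2) (half_pos hε)
    obtain ⟨A1, hA1, m, hm, hAb⟩ := hPRIM d b hb hb0
    have hF2 : LD r (cj A1 F1) := hCJLD _ r A1 hA1 F1 hF1
    have hV2 := isFlag_mapA hV1 A1
    have hP2 := pres_cj hP1 A1
    set F2 := cj A1 F1 with hF2def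
    set V2 : ℕ → Submodule ℝ (Fin (d + 1) → ℝ) :=
      fun k => (V1 k).map (A1 : (Fin (d + 1) → ℝ) →ₗ[ℝ] (Fin (d + 1) → ℝ)) with hV2def
    have he0 : (Pi.single 0 1 : Fin (d + 1) → ℝ) ∈ V2 1 := by
      refine ⟨m⁻¹ • b, (V1 1).smul_mem _ hbV, ?_⟩
      show A1 (m⁻¹ • b) = _
      rw [map_smul, hAb, smul_smul, inv_mul_cancel₀ hm, one_smul]
    have hline : ∀ w, w ∈ V2 1 ↔ Fin.tail w = 0 := by
      obtain ⟨v, hv0, hv⟩ := exists_gen hV2
      obtain ⟨c, hc⟩ := (hv _).1 he0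
      have hc0 : c ≠ 0 := by
        rintro rfl
        rw [zero_smul] at hc
        have := congrFun hc 0
        simp at this
      intro w
      constructor
      · intro hw
        obtain ⟨a, ha⟩ := (hv w).1 hw
        have : w = (a * c⁻¹) • (Pi.single 0 1 : Fin (d + 1) → ℝ) := by
          rw [hc, smul_smul, mul_assoc, inv_mul_cancel₀ hc0, mul_one, ha]
        rw [this]
        funext i
        show (a * c⁻¹) * (Pi.single 0 1 : Fin (d + 1) → ℝ) i.succ = 0
        rw [Pi.single_eq_of_ne (Fin.succ_ne_zero i), mul_zero]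
      · intro hw
        have : w = (w 0) • (Pi.single 0 1 : Fin (d + 1) → ℝ) := by
          funext i
          refine Fin.cases ?_ (fun i => ?_) i
          · simp
          · show w i.succ = w 0 * (Pi.single 0 1 : Fin (d + 1) → ℝ) i.succ
            rw [Pi.single_eq_of_ne (Fin.succ_ne_zero i), mul_zero]
            exact congrFun hw i
        rw [this]
        exact (V2 1).smul_mem _ he0
    have htl : ∀ a b : Fin (d + 1) → ℝ, a - b ∈ V2 1 ↔ Fin.tail a = Fin.tail b := by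
      intro a b
      rw [hline]
      have : Fin.tail (a - b) = Fin.tail a - Fin.tail b := rfl
      rw [this, sub_eq_zero]
    obtain ⟨Fq, hFq, hFqt⟩ := hQUOT d r F2 hF2
      (fun z w hw => (htl _ _).1 (hP2 1 z w ((hline w).2 hw)))
      (fun G hG h1 h2 z w hw => (htl _ _).1
        (hINV _ r F2 G V2 hF2 hV2 hP2 h1 h2 hG 1 z w ((hline w).2 hw)))
    have hVq := isFlag_quot hV2 hline
    have hPq : Pres Fq (fun k => (V2 (k + 1)).map (tailL d)) := by
      rintro n z w ⟨x, hx, rfl⟩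
      refine ⟨F2 (Fin.cons (α := fun _ => ℝ) 0 z + x) - F2 (Fin.cons (α := fun _ => ℝ) 0 z),
        hP2 (n + 1) _ _ hx, ?_⟩
      rw [map_sub, tailL_apply, tailL_apply, hFqt, hFqt]
      rfl
    obtain ⟨δ, hδ, hcj⟩ := hCJS (d + 1) A1.symm k (ε / 2) (half_pos hε)
    obtain ⟨Fr, hFr, hsr, A2, hA2, hPr⟩ := ih r hr Fq _ hFq hVq hPq k hk δ hδ
    have hF3 := hREC d r F2 Fq Fr hF2 hFq hFr hFqt
    have hFrk : ContDiff ℝ k (fun z => Fr z - Fq z) :=
      (hFr.smooth.of_le (by exact_mod_cast hk)).sub (hFq.smooth.of_le (by exact_mod_cast hk))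
    have hs3 := hTAIL d k δ (fun z => Fr z - Fq z) hFrk hδ hsr
    set F3 : (Fin (d + 1) → ℝ) → (Fin (d + 1) → ℝ) := fun z => F2 z +
      Fin.cons (α := fun _ => ℝ) (0 : ℝ) (Fr (Fin.tail z) - Fq (Fin.tail z)) with hF3def
    have hF3t : ∀ z, Fin.tail (F3 z) = Fr (Fin.tail z) := by
      intro z
      have : Fin.tail (F3 z) = Fin.tail (F2 z) + (Fr (Fin.tail z) - Fq (Fin.tail z)) := rfl
      rw [this, hFqt]
      abel
    have hcd : ContDiff ℝ k (fun z : Fin (d + 1) → ℝ =>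
        Fin.cons (α := fun _ => ℝ) (0 : ℝ) (Fr (Fin.tail z) - Fq (Fin.tail z))) := by
      have e : (fun z : Fin (d + 1) → ℝ =>
          Fin.cons (α := fun _ => ℝ) (0 : ℝ) (Fr (Fin.tail z) - Fq (Fin.tail z))) =
          fun z => F3 z - F2 z := by
        funext z
        simp only [hF3def]
        abel
      rw [e]
      exact (hF3.smooth.of_le (by exact_mod_cast hk)).sub
        (hF2.smooth.of_le (by exact_mod_cast hk))
    have hs4 := hcj _ hcd hs3
    have hF4 : LD r (cj A1.symm F3) := hCJLD _ r A1.symm (intAut_symm hA1) F3 hF3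
    have e1 : cj A1.symm F2 = F1 := by
      funext z
      show A1.symm (A1 (F1 (A1.symm (A1.symm.symm z)))) = F1 z
      rw [A1.symm_apply_apply]
      congr 1
      exact A1.symm_apply_apply z
    have e2 : ∀ z, cj A1.symm F3 z - F1 z = cj A1.symm (fun z : Fin (d + 1) → ℝ =>
        Fin.cons (α := fun _ => ℝ) (0 : ℝ) (Fr (Fin.tail z) - Fq (Fin.tail z))) z := by
      intro z
      rw [← e1]
      show A1.symm (F3 _) - A1.symm (F2 _) = A1.symm _
      rw [← map_sub]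
      congr 1
      simp only [hF3def]
      abel
    refine ⟨cj A1.symm F3, hF4, ?_, A1.trans (ext A2), intAut_trans hA1 (intAut_ext hA2), ?_⟩
    · have hs5 : Sml k (ε / 2) (fun z => cj A1.symm F3 z - F1 z) := by
        have : (fun z => cj A1.symm F3 z - F1 z) = cj A1.symm (fun z : Fin (d + 1) → ℝ =>
            Fin.cons (α := fun _ => ℝ) (0 : ℝ) (Fr (Fin.tail z) - Fq (Fin.tail z))) := funext e2
        rw [this]
        exact hs4
      have h := sml_add (k := k) ((hF4.smooth.of_le (by exact_mod_cast hk)).sub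
          (hF1.smooth.of_le (by exact_mod_cast hk))) ((hF1.smooth.of_le (by exact_mod_cast hk)).sub
          (hF.smooth.of_le (by exact_mod_cast hk))) hs5 hs1
      rw [add_halves] at h
      have e3 : (fun z => cj A1.symm F3 z - F z) =
          fun z => cj A1.symm F3 z - F1 z + (F1 z - F z) := by
        funext z
        abel
      rw [e3]
      exact h
    · have e4 : cj (A1.trans (ext A2)) (cj A1.symm F3) = cj (ext A2) F3 := by
        funext z
        show ext A2 (A1 (A1.symm (F3 (A1.symm.symm (A1.symm ((ext A2).symm z)))))) = _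
        rw [A1.apply_symm_apply]
        show ext A2 (F3 (A1 (A1.symm ((ext A2).symm z)))) = _
        rw [A1.apply_symm_apply]
        rfl
      rw [e4]
      intro n z w hw
      rcases n with _ | n
      · have hw0 : w = 0 := funext fun j => hw j (Nat.zero_le _)
        rw [hw0, add_zero, sub_self]
        exact Submodule.zero_mem _
      · rw [mem_std_succ] at hw ⊢
        have e5 : ∀ z, Fin.tail (cj (ext A2) F3 z) = cj A2 Fr (Fin.tail z) := by
          intro z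
          show Fin.tail (ext A2 (F3 ((ext A2).symm z))) = A2 (Fr (A2.symm (Fin.tail z)))
          rw [ext_apply, Fin.tail_cons, hF3t, ext_symm_apply, Fin.tail_cons]
        have e6 : Fin.tail (cj (ext A2) F3 (z + w) - cj (ext A2) F3 z) =
            cj A2 Fr (Fin.tail z + Fin.tail w) - cj A2 Fr (Fin.tail z) := by
          have h1 : Fin.tail (cj (ext A2) F3 (z + w) - cj (ext A2) F3 z) =
            Fin.tail (cj (ext A2) F3 (z + w)) - Fin.tail (cj (ext A2) F3 z) := rfl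
          rw [h1, e5, e5]
          rfl
        rw [e6]
        exact hPr n _ _ hw

end Pool.Agent.Y318.LF
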