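import Pool.Agent.Y318.LF.Main
import Pool.Agent.Y318.LF.Kill2
import Pool.Agent.Y210.LF.Prim
import Pool.Agent.Y210.LF.Cjatt
import Pool.Agent.Y210.LF.Quot2
import Pool.Agent.Y301.LF.CJAX
import Pool.Agent.H728R2.OS.Struct

set_option autoImplicit false

open Set Filter Topology

namespace Pool.Agent.Y318.LF

open Pool.Agent.H728R2.OS Pool.Agent.H637R2.TD

theorem image_omega {d : ℕ} (g : Torus d ≃ₜ Torus d) : g '' Omega g = Omega g := by
  ext x
  constructor
  · rintro ⟨y, hy, rfl⟩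
    exact omega_map g hy
  · intro hx
    refine ⟨g.symm x, ?_, g.apply_symm_apply x⟩
    have h := omega_sub g.symm g hx
    have e : cjT g.symm g = g := by
      ext x
      show g.symm (g (g x)) _ = _
      rw [g.symm_apply_apply]
    rwa [e] at h

theorem finite_of_conj {d : ℕ} {f g : Torus d ≃ₜ Torus d} (h : OmegaConj f g)
    (hf : (Omega f).Finite) : (Omega g).Finite := by
  obtain ⟨a, -⟩ := h
  have := hf.to_subtype
  exact Set.finite_coe_iff.1 (Finite.of_equiv _ a.toEquiv)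

theorem flag_top {d : ℕ} {V : ℕ → Submodule ℝ (Fin d → ℝ)} (hV : IsFlag V) {n : ℕ} (hn : d ≤ n) :
    V n = ⊤ := by
  have h1 : V d = ⊤ := by
    refine Submodule.eq_top_of_finrank_eq ?_
    rw [hV.dim d le_rfl]
    simp
  have h2 := hV.mono hn
  rw [h1] at h2
  exact top_le_iff.1 h2

theorem std_top {d n : ℕ} (hn : d ≤ n) : std d n = ⊤ := flag_top (isFlag_std d) hn

theorem iter_lift {d : ℕ} {F : (Fin d → ℝ) → (Fin d → ℝ)} {f : Torus d → Torus d}
    (h : IsLift toTorus F f) (n : ℕ) (z : Fin d → ℝ) :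
    toTorus (F^[n] z) = f^[n] (toTorus z) := by
  induction n with
  | zero => rfl
  | succ n ih => rw [Function.iterate_succ_apply', Function.iterate_succ_apply', h, ih]

/-- `f` is `Ω`-stable in the space of the `C^r` diffeomorphisms of `𝕋^d` which are isotopic to the
identity and preserve some complete flag of linear foliations (any one). -/
def FlagClassStable {d : ℕ} (r : ℕ∞) (f : Torus d ≃ₜ Torus d) : Prop :=
  ∃ k : ℕ, (k : ℕ∞) ≤ r ∧ ∃ ε : ℝ, 0 < ε ∧ ∀ g : Torus d ≃ₜ Torus d,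
    (∃ W : ℕ → Submodule ℝ (Fin d → ℝ), PreservesFlag r g W) → CkClose toTorus k ε f g →
      OmegaConj f g

theorem classStable_of_omegaStable {d : ℕ} {r : ℕ∞} {f : Torus d ≃ₜ Torus d}
    (h : OmegaStable toTorus r f) : FlagClassStable r f := by
  obtain ⟨k, hk, ε, hε, h⟩ := h
  exact ⟨k, hk, ε, hε, fun g ⟨_, hg⟩ hc => h g hg.1 hc⟩

/-- **Stable diffeomorphisms preserve only rational flags.** -/
theorem rat_of_stable (hPRIM : S_PRIM) (hAX : S_CJAX) (hKILL : S_KILL2) (hAD : S_ADAPT) {d : ℕ}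
    {r : ℕ∞} (hr : 1 ≤ r) {f : Torus d ≃ₜ Torus d} {V : ℕ → Submodule ℝ (Fin d → ℝ)}
    (hf : PreservesFlag r f V) (hs : FlagClassStable r f) (n : ℕ) : IsRat (V n) := by
  classical
  by_contra hn
  have hV := hf.2.1
  have htop : ∀ m, d ≤ m → IsRat (V m) := by
    intro m hm
    rw [flag_top hV hm, ← std_top le_rfl]
    exact isRat_std d d
  have hnd : n ≤ d := by
    by_contra h
    exact hn (htop n (by omega))
  obtain ⟨j, hj⟩ : ∃ j, j = Nat.findGreatest (fun m => ¬ IsRat (V m)) d := ⟨_, rfl⟩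
  have hj1 : ¬ IsRat (V j) := by
    rw [hj]
    exact Nat.findGreatest_spec (P := fun m => ¬ IsRat (V m)) hnd hn
  have hj2 : ∀ m, j < m → IsRat (V m) := by
    intro m hm
    rcases Nat.lt_or_ge d m with h | h
    · exact htop m h.le
    · by_contra hc
      rw [hj] at hm
      exact Nat.findGreatest_is_greatest (P := fun m => ¬ IsRat (V m)) hm h hc
  have hjd : j < d := by
    by_contra h
    exact hj1 (htop j (by omega))
  obtain ⟨c, rfl⟩ : ∃ c, d = j + 1 + c := ⟨d - (j + 1), by omega⟩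
  obtain ⟨hdf, -, F, hFc, hFl, hper, hP⟩ := hf
  have hf' : PreservesFlag r f V := ⟨hdf, hV, F, hFc, hFl, hper, hP⟩
  have hF : LD r F := lift _ r f F hdf hFc hFl hper
  obtain ⟨A, hA, hAV⟩ := hAD _ V hV (j + 1) (by omega) (fun k hk _ => hj2 k (by omega))
  obtain ⟨T, hT, hT'⟩ := ta _ A hA
  obtain ⟨k, hk, ε, hε, hst⟩ := hs
  obtain ⟨δ, hδ, hcj⟩ := (cjst _ r A.symm T.symm (intAut_symm hA) hT' hT f).2.1 k ε hε
  obtain ⟨F', hF', hsm, hPF', hno⟩ := hKILL j c r hr (cj A F)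
    (fun k => (V k).map (A : (Fin (j + 1 + c) → ℝ) →ₗ[ℝ] (Fin (j + 1 + c) → ℝ)))
    (cjld _ r A hA F hF) (isFlag_mapA hV A) (pres_cj hP A) (fun k hk => by
      rcases Nat.lt_or_ge (j + 1 + c) k with h | h
      · rw [std_top h.le]
        exact flag_top (isFlag_mapA hV A) h.le
      · exact hAV k hk h) (fun h => hj1 (isRat_of_mapA hA h)) k hk δ hδ
  obtain ⟨f', hf'l, hf'd⟩ := desc _ r F' hF'
  have hc1 : CkClose toTorus k δ (cjT T f) f' :=
    ⟨cj A F, F', (cjld _ r A hA F hF).smooth.of_le (by exact_mod_cast hk),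
      hF'.smooth.of_le (by exact_mod_cast hk), lift_cj hT hT' hFl, hf'l, hsm⟩
  have hc2 := hcj _ _ hc1
  rw [cjT_symm'] at hc2
  have hLD2 := cjld _ r A.symm (intAut_symm hA) F' hF'
  have hPr : PreservesFlag r (cjT T.symm f') V := by
    refine ⟨(cjst _ r A.symm T.symm (intAut_symm hA) hT' hT f').1 hf'd, hV, cj A.symm F',
      hLD2.smooth.continuous, lift_cj hT' hT hf'l, hLD2.per, ?_⟩
    have h1 := pres_cj hPF' A.symm
    intro k z w hw
    have h2 := h1 k z w
    simp only [map_symm_map] at h2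
    exact h2 hw
  have hconj := hst _ ⟨V, hPr⟩ hc2
  obtain ⟨g1, W, hg1, -, hg1c, -, -, -, -, hfin, hne⟩ := dens hPRIM hAX hr hf' k hk ε hε
  have hconj1 := hst g1 ⟨W, hg1⟩ hg1c
  have hfin1 : (Omega f).Finite :=
    finite_of_conj (conj_symm (fun x hx => omega_map f hx) hconj1) hfin
  have hfin2 : (Omega (cjT T.symm f')).Finite := finite_of_conj hconj hfin1
  obtain ⟨q, hq⟩ : (Omega (cjT T.symm f')).Nonempty := by
    obtain ⟨a, -⟩ := hconj1
    obtain ⟨b, -⟩ := hconj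
    obtain ⟨x, hx⟩ := hne
    exact ⟨_, (b (a.symm ⟨x, hx⟩)).2⟩
  obtain ⟨m, hm, hmq⟩ := periodic_of_finite (cjT T.symm f').injective hfin2 (image_omega _) hq
  have hs : Function.Semiconj T (cjT T.symm f') f' := fun w => by
    show T (T.symm (f' (T w))) = f' (T w)
    rw [T.apply_symm_apply]
  have h1 : f'^[m] (T q) = T q := by
    rw [← (hs.iterate_right m) q, hmq]
  have h2 := iter_lift hf'l m (rep (T q))
  rw [toTorus_rep, h1, ← toTorus_rep (T q), tor_eq_iff] at h2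
  have h3 := isInt_neg h2
  rw [neg_sub, toTorus_rep] at h3
  exact hno _ m hm h3

/-- **The stability theorem.** -/
theorem stab (hPRIM : S_PRIM) (hAX : S_CJAX) (hKILL : S_KILL2) (hAD : S_ADAPT) {d : ℕ}
    {r : ℕ∞} (hr : 1 ≤ r) {f : Torus d ≃ₜ Torus d} {V : ℕ → Submodule ℝ (Fin d → ℝ)}
    (hf : PreservesFlag r f V) (hs : FlagClassStable r f) : (∀ n, IsRat (V n)) ∧
      ChainHyp toTorus f ∧ AxiomA toTorus f ∧ NoCycle f ∧ (Omega f).Finite := by
  have hrat := rat_of_stable hPRIM hAX hKILL hAD hr hf hs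
  refine ⟨hrat, ?_⟩
  obtain ⟨hdf, hV, F, hFc, hFl, hper, hP⟩ := hf
  have hF : LD r F := lift _ r f F hdf hFc hFl hper
  obtain ⟨A, hA, hAV⟩ := hAD _ V hV 0 (Nat.zero_le _) (fun k _ _ => hrat k)
  obtain ⟨T, hT, hT'⟩ := ta _ A hA
  have hPs : Pres (cj A F) (std d) := by
    intro k z w hw
    rcases Nat.lt_or_ge d k with h | h
    · rw [std_top h.le]
      trivial
    · rw [← hAV k (Nat.zero_le _) h] at hw ⊢
      exact pres_cj hP A k z w hw
  have hflag : IsFlagDiffeo r (cjT T f) := std_ inv d r _ (cj A F)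
    ((cjst d r A T hA hT hT' f).1 hdf) (cjld d r A hA F hF) (lift_cj hT hT' hFl) hPs
  have hst : FlagStable r (cjT T f) := by
    obtain ⟨k, hk, ε, hε, hst⟩ := hs
    obtain ⟨δ, hδ, hcj⟩ := (cjst _ r A.symm T.symm (intAut_symm hA) hT' hT f).2.1 k ε hε
    refine ⟨k, hk, min δ (1 / 2), lt_min hδ (by norm_num), fun g hg hc => ?_⟩
    have h1 := pres_of_close hA hT hT' (cjld d r A hA F hF) (lift_cj hT hT' hFl) hg
      (min_le_right _ _) hc
    have h2 := hcj _ _ (ckClose_mono hc le_rfl (min_le_left _ _))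
    rw [cjT_symm'] at h2
    have h3 := hst _ ⟨_, h1⟩ h2
    have h4 := conj_cjT T (cjT T.symm g)
    rw [cjT_symm''] at h4
    exact conj_trans (conj_symm (fun x hx => omega_map f hx) (conj_cjT T f)) (conj_trans h3 h4)
  obtain ⟨a1, a2, a3, a4⟩ := flagStable_main hr _ hflag hst
  obtain ⟨b1, b2, b3, b4, b5⟩ := hAX d A.symm T.symm (intAut_symm hA) hT' hT (cjT T f)
  rw [cjT_symm'] at b1 b2 b3 b4
  exact ⟨b2 a1, b1 a2, b3 a3, b4 a4⟩

/-- all hypotheses discharged -/
theorem kill : S_KILL2 :=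
  kill2 Pool.Agent.Y210.LF.t inv Pool.Agent.Y925.LF.Adapt.kron (std_ inv) desc

theorem adapt : S_ADAPT := Pool.Agent.Y925.LF.Adapt.adapt Pool.Agent.Y210.LF.prim

end Pool.Agent.Y318.LF
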