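import Pool.Agent.Y318.LF.Lift

set_option autoImplicit false

open Set Filter Topology

namespace Pool.Agent.Y318.LF

open Pool.Agent.H728R2.OS Pool.Agent.H637R2.TD

/-- the first coordinate and the tail -/
def stdEquiv (d k : ℕ) : std (d + 1) (k + 1) ≃ₗ[ℝ] ℝ × std d k where
  toFun z := (z.1 0, ⟨Fin.tail z.1, mem_std_succ.1 z.2⟩)
  invFun x := ⟨Fin.cons (α := fun _ => ℝ) x.1 x.2.1, mem_std_succ.2 (by
    rw [Fin.tail_cons]; exact x.2.2)⟩
  map_add' _ _ := rfl
  map_smul' _ _ := rfl
  left_inv z := by
    apply Subtype.ext
    exact Fin.cons_self_tail z.1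
  right_inv x := by
    refine Prod.ext ?_ (Subtype.ext ?_)
    · exact Fin.cons_zero (α := fun _ : Fin (d + 1) => ℝ) x.1 x.2.1
    · exact Fin.tail_cons (α := fun _ : Fin (d + 1) => ℝ) x.1 x.2.1

theorem isFlag_std (d : ℕ) : IsFlag (std d) := by
  constructor
  · intro a b hab z hz j hj
    exact hz j (hab.trans hj)
  · induction d with
    | zero =>
      intro k hk
      have : k = 0 := by omega
      subst this
      have : std 0 0 = ⊥ := by
        ext z
        constructor
        · intro _
          exact (Submodule.mem_bot ℝ).2 (Subsingleton.elim _ _)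
        · intro h
          rw [(Submodule.mem_bot ℝ).1 h]
          exact Submodule.zero_mem _
      rw [this, finrank_bot]
    | succ d ih =>
      intro k hk
      rcases k with _ | k
      · have : std (d + 1) 0 = ⊥ := by
          ext z
          constructor
          · intro h
            exact (Submodule.mem_bot ℝ).2 (funext fun j => h j (Nat.zero_le _))
          · intro h
            rw [(Submodule.mem_bot ℝ).1 h]
            exact Submodule.zero_mem _
        rw [this, finrank_bot]
      · have e : Module.finrank ℝ (std (d + 1) (k + 1)) = 1 + Module.finrank ℝ (std d k) := by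
          rw [(stdEquiv d k).finrank_eq, Module.finrank_prod, Module.finrank_self]
        rw [e, ih k (by omega), add_comm]

theorem std_ (hINV : S_INV) : S_STD := by
  intro d r f F hf hF hl hP
  obtain ⟨G, hG, hGF, hFG⟩ := hF.inv
  have hPG : Pres G (std d) := hINV d r F G _ hF (isFlag_std d) hP hGF hFG hG.continuous
  have hGper : ∀ z n, IsInt n → G (z + n) = G z + n := by
    intro z n hn
    have h1 := hF.per (G z) n hn
    rw [hFG] at h1
    rw [← h1, hGF]
  have hGl : IsLift toTorus G f.symm := by
    intro z
    have := hl (G z)
    rw [hFG] at this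
    rw [this, f.symm_apply_apply]
  have one : ∀ (H : (Fin d → ℝ) → (Fin d → ℝ)) (h : Torus d → Torus d), Pres H (std d) →
      (∀ z n, IsInt n → H (z + n) = H z + n) → IsLift toTorus H h → ∀ (k : Fin d) (x y : Torus d),
      (∀ j, k ≤ j → x j = y j) → ∀ j, k ≤ j → h x j = h y j := by
    intro H h hH hHper hHl k x y hxy
    have hx := toTorus_rep x
    have hy := toTorus_rep y
    have h1 : ∀ j, k ≤ j → ∃ n : ℤ, rep y j - rep x j = n := by
      intro j hj
      refine (circ_eq_iff _ _).1 ?_
      have := hxy j hj
      rw [← hx, ← hy] at this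
      exact this
    choose n hn using h1
    set N : Fin d → ℝ := fun j => if hj : k ≤ j then (n j hj : ℝ) else 0 with hN
    have hNI : IsInt N := by
      intro j
      by_cases hj : k ≤ j
      · exact ⟨n j hj, by simp [hN, hj]⟩
      · exact ⟨0, by simp [hN, hj]⟩
    have hw : rep y - N - rep x ∈ std d (k : ℕ) := by
      intro j hj
      have hj' : k ≤ j := hj
      show rep y j - N j - rep x j = 0
      have := hn j hj'
      simp only [hN, hj', dif_pos]
      linarith
    have h2 := hH (k : ℕ) (rep x) _ hw
    have h3 : rep x + (rep y - N - rep x) = rep y + -N := by abel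
    rw [h3, hHper _ _ (isInt_neg hNI)] at h2
    intro j hj
    have h4 := h2 j hj
    rw [← hx, ← hy, ← hHl, ← hHl]
    show ((H (rep x) j : ℝ) : UnitAddCircle) = ((H (rep y) j : ℝ) : UnitAddCircle)
    rw [circ_eq_iff]
    obtain ⟨m, hm⟩ := hNI j
    refine ⟨m, ?_⟩
    have h5 : H (rep y) j + -N j - H (rep x) j = 0 := h4
    linarith
  refine ⟨hf, fun k x y => ⟨one F f hP hF.per hl k x y, fun h => ?_⟩, F, hF.smooth.continuous, hl, ?_⟩
  · have := one G f.symm hPG hGper hGl k (f x) (f y) h
    rwa [f.symm_apply_apply, f.symm_apply_apply] at this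
  · intro z k
    -- the function of one variable
    set h : ℝ → ℝ := fun t => F (z + Pi.single k t) k with hh
    have hcont : Continuous h := by
      refine (continuous_apply k).comp (hF.smooth.continuous.comp (continuous_const.add ?_))
      exact continuous_single (A := fun _ : Fin d => ℝ) k
    have hinj : Function.Injective h := by
      intro t t' htt
      have h1 : F (z + Pi.single k t) - F (z + Pi.single k t') ∈ std d (k : ℕ) := by
        have h2 : (Pi.single k t - Pi.single k t' : Fin d → ℝ) ∈ std d ((k : ℕ) + 1) := by
          intro j hj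
          have hjk : j ≠ k := by
            rintro rfl
            omega
          show (Pi.single k t : Fin d → ℝ) j - (Pi.single k t' : Fin d → ℝ) j = 0
          rw [Pi.single_eq_of_ne hjk, Pi.single_eq_of_ne hjk, sub_self]
        have h3 := hP _ (z + (Pi.single k t' : Fin d → ℝ)) _ h2
        have h4 : z + (Pi.single k t' : Fin d → ℝ) +
            ((Pi.single k t : Fin d → ℝ) - (Pi.single k t' : Fin d → ℝ)) =
            z + (Pi.single k t : Fin d → ℝ) := by
          abel
        rw [h4] at h3
        intro j hj
        rcases Nat.lt_or_ge (k : ℕ) (j : ℕ) with hlt | hge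
        · exact h3 j hlt
        · have : j = k := Fin.ext (le_antisymm hge hj)
          subst this
          show F (z + Pi.single j t) j - F (z + Pi.single j t') j = 0
          exact sub_eq_zero.2 htt
      have h5 := hPG _ (F (z + (Pi.single k t' : Fin d → ℝ))) _ h1
      rw [add_sub_cancel, hGF, hGF] at h5
      have h6 := h5 k le_rfl
      have h7 : (z + (Pi.single k t : Fin d → ℝ) - (z + (Pi.single k t' : Fin d → ℝ))) k =
          t - t' := by
        simp
      rw [h7] at h6
      linarith
    have hone : h 1 = h 0 + 1 := by
      have h1 : IsInt (Pi.single k 1 : Fin d → ℝ) := by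
        intro j
        by_cases hj : j = k
        · subst hj
          exact ⟨1, by simp⟩
        · exact ⟨0, by rw [Pi.single_eq_of_ne hj]; simp⟩
      have h2 := hF.per z _ h1
      simp only [hh]
      rw [h2]
      simp
    have hmono : StrictMono h := by
      rcases hcont.strictMono_of_inj hinj with h1 | h1
      · exact h1
      · exact absurd (h1 (zero_lt_one)) (by linarith)
    intro t ht
    have := hmono ht
    simp only [hh] at this
    rwa [Pi.single_zero, add_zero] at this

end Pool.Agent.Y318.LF
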