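import Pool.Agent.Y318.LF.Defs
import Pool.Agent.H637R2.TD.Base

set_option autoImplicit false

open Set Filter Topology MeasureTheory

namespace Pool.Agent.Y318.LF

open Pool.Agent.H728R2.OS Pool.Agent.H637R2.TD

/-- `F` is a lift of a `C^r` diffeomorphism of the torus isotopic to the identity. -/
structure LD {d : ℕ} (r : ℕ∞) (F : (Fin d → ℝ) → (Fin d → ℝ)) : Prop where
  smooth : ContDiff ℝ r F
  per : ∀ z n, IsInt n → F (z + n) = F z + n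
  inv : ∃ G : (Fin d → ℝ) → (Fin d → ℝ), ContDiff ℝ r G ∧ (∀ z, G (F z) = z) ∧ ∀ z, F (G z) = z

/-- `z ∈ std d k` if and only if `z j = 0` for all `j ≥ k`. -/
def std (d k : ℕ) : Submodule ℝ (Fin d → ℝ) where
  carrier := {z | ∀ j : Fin d, k ≤ (j : ℕ) → z j = 0}
  add_mem' := fun {a b} ha hb j hj => by
    show a j + b j = 0
    rw [ha j hj, hb j hj, add_zero]
  zero_mem' := fun _ _ => rfl
  smul_mem' := fun c a ha j hj => by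
    show c * a j = 0
    rw [ha j hj, mul_zero]

/-- linear automorphisms of the torus -/
def IntAut {d : ℕ} (A : (Fin d → ℝ) ≃L[ℝ] (Fin d → ℝ)) : Prop := ∀ z, IsInt (A z) ↔ IsInt z

/-- conjugation -/
def cj {d : ℕ} (A : (Fin d → ℝ) ≃L[ℝ] (Fin d → ℝ)) (F : (Fin d → ℝ) → (Fin d → ℝ)) :
    (Fin d → ℝ) → (Fin d → ℝ) := fun z => A (F (A.symm z))

/-- conjugation on the torus -/
def cjT {d : ℕ} (T f : Torus d ≃ₜ Torus d) : Torus d ≃ₜ Torus d := (T.symm.trans f).trans T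

/-- all derivatives of order at most `k` are less than `ε` -/
def Sml {d : ℕ} (k : ℕ) (ε : ℝ) (U : (Fin d → ℝ) → (Fin d → ℝ)) : Prop :=
  ∀ j ≤ k, ∀ z, ‖iteratedFDeriv ℝ j U z‖ < ε

def S_LIFT : Prop := ∀ (d : ℕ) (r : ℕ∞) (f : Torus d ≃ₜ Torus d)
  (F : (Fin d → ℝ) → (Fin d → ℝ)), IsDiffeo toTorus r f → Continuous F → IsLift toTorus F f →
  (∀ z n, IsInt n → F (z + n) = F z + n) → LD r F

def S_DESC : Prop := ∀ (d : ℕ) (r : ℕ∞) (F : (Fin d → ℝ) → (Fin d → ℝ)), LD r F →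
  ∃ f : Torus d ≃ₜ Torus d, IsLift toTorus F f ∧ IsDiffeo toTorus r f

def S_SUBG : Prop := ∀ (d : ℕ) (S : AddSubgroup (Fin d → ℝ)), IsClosed (S : Set (Fin d → ℝ)) →
  ∃ δ : ℝ, 0 < δ ∧ ∀ s ∈ S, ‖s‖ < δ → ∀ t : ℝ, t • s ∈ S

def S_DIR : Prop := ∀ (d : ℕ) (v : Fin d → ℝ) (ε : ℝ), 0 < ε →
  ∃ q : ℕ, 1 ≤ q ∧ ∃ b : Fin d → ℝ, IsInt b ∧ ‖(q : ℝ) • v - b‖ < ε

def S_PRIM : Prop := ∀ (d : ℕ) (b : Fin (d + 1) → ℝ), IsInt b → b ≠ 0 →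
  ∃ A : (Fin (d + 1) → ℝ) ≃L[ℝ] (Fin (d + 1) → ℝ), IntAut A ∧
    ∃ m : ℝ, m ≠ 0 ∧ A b = m • (Pi.single 0 1 : Fin (d + 1) → ℝ)

def S_PERT : Prop := ∀ (d : ℕ) (r : ℕ∞), 1 ≤ r → ∀ F : (Fin d → ℝ) → (Fin d → ℝ), LD r F →
  ∀ (l : (Fin d → ℝ) →L[ℝ] ℝ) (k : ℕ), (k : ℕ∞) ≤ r → ∀ ε : ℝ, 0 < ε → ∃ δ : ℝ, 0 < δ ∧
    ∀ u : Fin d → ℝ, ‖u‖ < δ → LD r (fun z => F z + l (F z - z) • u) ∧
      Sml k ε (fun z => l (F z - z) • u)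

def S_INV : Prop := ∀ (d : ℕ) (r : ℕ∞) (F G : (Fin d → ℝ) → (Fin d → ℝ))
  (V : ℕ → Submodule ℝ (Fin d → ℝ)), LD r F → IsFlag V → Pres F V → (∀ z, G (F z) = z) →
  (∀ z, F (G z) = z) → Continuous G → Pres G V

def S_QUOT : Prop := ∀ (d : ℕ) (r : ℕ∞) (F : (Fin (d + 1) → ℝ) → (Fin (d + 1) → ℝ)), LD r F →
  (∀ z w, Fin.tail w = 0 → Fin.tail (F (z + w)) = Fin.tail (F z)) →
  (∀ G : (Fin (d + 1) → ℝ) → (Fin (d + 1) → ℝ), Continuous G → (∀ z, G (F z) = z) →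
    (∀ z, F (G z) = z) → ∀ z w, Fin.tail w = 0 → Fin.tail (G (z + w)) = Fin.tail (G z)) →
  ∃ F' : (Fin d → ℝ) → (Fin d → ℝ), LD r F' ∧ ∀ z, Fin.tail (F z) = F' (Fin.tail z)

def S_RECOMB : Prop := ∀ (d : ℕ) (r : ℕ∞) (F : (Fin (d + 1) → ℝ) → (Fin (d + 1) → ℝ))
  (F' F'' : (Fin d → ℝ) → (Fin d → ℝ)), LD r F → LD r F' → LD r F'' →
  (∀ z, Fin.tail (F z) = F' (Fin.tail z)) →
  LD r (fun z => F z + Fin.cons (α := fun _ => ℝ) (0 : ℝ)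
    (F'' (Fin.tail z) - F' (Fin.tail z)))

def S_TAIL : Prop := ∀ (d : ℕ) (k : ℕ) (ε : ℝ) (U : (Fin d → ℝ) → (Fin d → ℝ)),
  ContDiff ℝ k U → 0 < ε → Sml k ε U →
  Sml k ε (fun z : Fin (d + 1) → ℝ => Fin.cons (α := fun _ => ℝ) (0 : ℝ) (U (Fin.tail z)))

def S_STD : Prop := ∀ (d : ℕ) (r : ℕ∞) (f : Torus d ≃ₜ Torus d)
  (F : (Fin d → ℝ) → (Fin d → ℝ)), IsDiffeo toTorus r f → LD r F → IsLift toTorus F f →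
  Pres F (std d) → IsFlagDiffeo r f

/-- flag preserving diffeomorphisms isotopic to the identity preserve the standard flag -/
def S_STD' : Prop := ∀ (d : ℕ) (r : ℕ∞) (f : Torus d ≃ₜ Torus d)
  (F : (Fin d → ℝ) → (Fin d → ℝ)), IsFlagDiffeo r f → Continuous F → IsLift toTorus F f →
  (∀ z n, IsInt n → F (z + n) = F z + n) → Pres F (std d)

def S_CJLD : Prop := ∀ (d : ℕ) (r : ℕ∞) (A : (Fin d → ℝ) ≃L[ℝ] (Fin d → ℝ)), IntAut A →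
  ∀ F : (Fin d → ℝ) → (Fin d → ℝ), LD r F → LD r (cj A F)

def S_CJSML : Prop := ∀ (d : ℕ) (A : (Fin d → ℝ) ≃L[ℝ] (Fin d → ℝ)) (k : ℕ) (ε : ℝ), 0 < ε →
  ∃ δ : ℝ, 0 < δ ∧ ∀ U : (Fin d → ℝ) → (Fin d → ℝ), ContDiff ℝ k U → Sml k δ U →
    Sml k ε (cj A U)

def S_TA : Prop := ∀ (d : ℕ) (A : (Fin d → ℝ) ≃L[ℝ] (Fin d → ℝ)), IntAut A →
  ∃ T : Torus d ≃ₜ Torus d, IsLift toTorus A T ∧ IsLift toTorus A.symm T.symm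

def S_CJAX : Prop := ∀ (d : ℕ) (A : (Fin d → ℝ) ≃L[ℝ] (Fin d → ℝ)) (T : Torus d ≃ₜ Torus d),
  IntAut A → IsLift toTorus A T → IsLift toTorus A.symm T.symm → ∀ f : Torus d ≃ₜ Torus d,
  (AxiomA toTorus f → AxiomA toTorus (cjT T f)) ∧
  (ChainHyp toTorus f → ChainHyp toTorus (cjT T f)) ∧
  (NoCycle f → NoCycle (cjT T f)) ∧
  ((Omega f).Finite → (Omega (cjT T f)).Finite) ∧
  ((ChainRec f).Finite → (ChainRec (cjT T f)).Finite)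

def S_CJATT : Prop := ∀ (d : ℕ) (A : (Fin d → ℝ) ≃L[ℝ] (Fin d → ℝ)) (T : Torus d ≃ₜ Torus d),
  IntAut A → IsLift toTorus A T → IsLift toTorus A.symm T.symm → ∀ f : Torus d ≃ₜ Torus d,
  FinitelyManyAttractors f → FinitelyManyAttractors (cjT T f)

def S_CJST : Prop := ∀ (d : ℕ) (r : ℕ∞) (A : (Fin d → ℝ) ≃L[ℝ] (Fin d → ℝ))
  (T : Torus d ≃ₜ Torus d), IntAut A → IsLift toTorus A T → IsLift toTorus A.symm T.symm →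
  ∀ f : Torus d ≃ₜ Torus d,
    (IsDiffeo toTorus r f → IsDiffeo toTorus r (cjT T f)) ∧
    (∀ (k : ℕ) (ε : ℝ), 0 < ε → ∃ δ : ℝ, 0 < δ ∧ ∀ f g : Torus d ≃ₜ Torus d,
      CkClose toTorus k δ f g → CkClose toTorus k ε (cjT T f) (cjT T g)) ∧
    (OmegaStable toTorus r f → OmegaStable toTorus r (cjT T f))

def S_KRON : Prop := ∀ (m : ℕ) (l : (Fin m → ℝ) →ₗ[ℝ] ℝ), l ≠ 0 → ¬ IsRat (LinearMap.ker l) →
  Dense {x : ℝ | ∃ n, IsInt n ∧ x = l n}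

def S_ADAPT : Prop := ∀ (d : ℕ) (V : ℕ → Submodule ℝ (Fin d → ℝ)), IsFlag V → ∀ j ≤ d,
  (∀ k, j ≤ k → k ≤ d → IsRat (V k)) →
  ∃ A : (Fin d → ℝ) ≃L[ℝ] (Fin d → ℝ), IntAut A ∧
    ∀ k, j ≤ k → k ≤ d → (V k).map (A : (Fin d → ℝ) →ₗ[ℝ] (Fin d → ℝ)) = std d k

def S_QUOT2 : Prop := ∀ (j c : ℕ) (r : ℕ∞) (F : (Fin (j + c) → ℝ) → (Fin (j + c) → ℝ)), LD r F →
  (∀ k, j ≤ k → ∀ z w, w ∈ std (j + c) k → F (z + w) - F z ∈ std (j + c) k) →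
  (∀ G : (Fin (j + c) → ℝ) → (Fin (j + c) → ℝ), Continuous G → (∀ z, G (F z) = z) →
    (∀ z, F (G z) = z) → ∀ z w, w ∈ std (j + c) j → G (z + w) - G z ∈ std (j + c) j) →
  ∃ F' : (Fin c → ℝ) → (Fin c → ℝ), LD r F' ∧ Pres F' (std c) ∧
    ∀ z i, F z (Fin.natAdd j i) = F' (fun i => z (Fin.natAdd j i)) i

/-- approximation by maps preserving a rational flag -/
def S_RATL : Prop := ∀ (d : ℕ) (r : ℕ∞), 1 ≤ r → ∀ (F : (Fin d → ℝ) → (Fin d → ℝ))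
  (V : ℕ → Submodule ℝ (Fin d → ℝ)), LD r F → IsFlag V → Pres F V →
  ∀ k : ℕ, (k : ℕ∞) ≤ r → ∀ ε : ℝ, 0 < ε → ∃ F' : (Fin d → ℝ) → (Fin d → ℝ), LD r F' ∧
    Sml k ε (fun z => F' z - F z) ∧ ∃ A : (Fin d → ℝ) ≃L[ℝ] (Fin d → ℝ), IntAut A ∧
      Pres (cj A F') (std d)

/-- with an irrational hyperplane `V j` of `std d (j + 1)` the periodic points can be destroyed -/
def S_KILL : Prop := ∀ (j c : ℕ) (r : ℕ∞), 1 ≤ r →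
  ∀ (F : (Fin (j + 1 + c) → ℝ) → (Fin (j + 1 + c) → ℝ))
  (V : ℕ → Submodule ℝ (Fin (j + 1 + c) → ℝ)), LD r F → IsFlag V → Pres F V →
  (∀ k, j + 1 ≤ k → V k = std (j + 1 + c) k) → ¬ IsRat (V j) →
  ∀ k : ℕ, (k : ℕ∞) ≤ r → ∀ ε : ℝ, 0 < ε →
    ∃ F' : (Fin (j + 1 + c) → ℝ) → (Fin (j + 1 + c) → ℝ), LD r F' ∧
      Sml k ε (fun z => F' z - F z) ∧ ∀ z n, 0 < n → ¬ IsInt (F'^[n] z - z)

end Pool.Agent.Y318.LF
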